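import Mathlib

set_option autoImplicit false

namespace Pool.Agent.MP_491344_nt.EnergyH96

open Finset

/-- Sum of the additive energy type: number of quadruples, written through differences and
through sums. -/
lemma energy_swap (S : Finset ℕ) :
    ∑ p ∈ S ×ˢ S, (((S ×ˢ S).filter (fun q => (q.1 : ℤ) - q.2 = (p.1 : ℤ) - p.2)).card : ℝ) =
      ∑ p ∈ S ×ˢ S, (((S ×ˢ S).filter (fun q => q.1 + q.2 = p.1 + p.2)).card : ℝ) := by
  have h1 : ∀ p : ℕ × ℕ,
      (((S ×ˢ S).filter (fun q => (q.1 : ℤ) - q.2 = (p.1 : ℤ) - p.2)).card : ℝ) =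
        ∑ x ∈ S, ∑ y ∈ S, if x + p.2 = y + p.1 then (1 : ℝ) else 0 := by
    intro p
    rw [Finset.card_filter, Nat.cast_sum, Finset.sum_product]
    refine Finset.sum_congr rfl fun x _ => Finset.sum_congr rfl fun y _ => ?_
    by_cases h : x + p.2 = y + p.1
    · rw [if_pos h, if_pos (by simp only []; omega)]; simp
    · rw [if_neg h, if_neg (by simp only []; omega)]; simp
  have h2 : ∀ p : ℕ × ℕ,
      (((S ×ˢ S).filter (fun q => q.1 + q.2 = p.1 + p.2)).card : ℝ) =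
        ∑ x ∈ S, ∑ y ∈ S, if x + y = p.1 + p.2 then (1 : ℝ) else 0 := by
    intro p
    rw [Finset.card_filter, Nat.cast_sum, Finset.sum_product]
    refine Finset.sum_congr rfl fun x _ => Finset.sum_congr rfl fun y _ => ?_
    by_cases h : x + y = p.1 + p.2
    · rw [if_pos h, if_pos h]; simp
    · rw [if_neg h, if_neg h]; simp
  rw [Finset.sum_congr rfl (fun p _ => h1 p), Finset.sum_congr rfl (fun p _ => h2 p)]
  rw [Finset.sum_product, Finset.sum_product]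
  -- LHS: sum over a, a', x, y of [x + a' = y + a]; RHS: sum over a, y, x, a' of [x + a' = a + y]
  refine Finset.sum_congr rfl fun a _ => ?_
  have e1 : ∑ a' ∈ S, ∑ x ∈ S, ∑ y ∈ S, (if x + a' = y + a then (1:ℝ) else 0) =
      ∑ y ∈ S, ∑ x ∈ S, ∑ a' ∈ S, (if x + a' = y + a then (1:ℝ) else 0) := by
    rw [Finset.sum_comm]
    have : ∀ x ∈ S, ∑ a' ∈ S, ∑ y ∈ S, (if x + a' = y + a then (1:ℝ) else 0) =
        ∑ y ∈ S, ∑ a' ∈ S, (if x + a' = y + a then (1:ℝ) else 0) := fun x _ => Finset.sum_comm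
    rw [Finset.sum_congr rfl this, Finset.sum_comm]
  simp only []
  rw [e1]
  refine Finset.sum_congr rfl fun y _ => Finset.sum_congr rfl fun x _ =>
    Finset.sum_congr rfl fun a' _ => ?_
  rw [add_comm y a]

/-- Test function inequality: Cauchy-Schwarz against the difference representation function. -/
theorem test_ineq (S : Finset ℕ) (T : ℤ → ℝ) (D : Finset ℤ)
    (hD : ∀ a ∈ S, ∀ a' ∈ S, T ((a:ℤ) - a') ≠ 0 → ((a:ℤ) - a') ∈ D) (F : ℝ)
    (hF : ∑ p ∈ S ×ˢ S, (((S ×ˢ S).filter (fun q => q.1 + q.2 = p.1 + p.2)).card : ℝ) ≤ F) :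
    (∑ p ∈ S ×ˢ S, T ((p.1 : ℤ) - p.2)) ^ 2 ≤ F * ∑ d ∈ D, T d ^ 2 := by
  classical
  set P : Finset (ℕ × ℕ) := S ×ˢ S with hP
  set r : ℤ → ℝ := fun d => ((P.filter (fun q => (q.1 : ℤ) - q.2 = d)).card : ℝ) with hr
  have hmap : ∀ p ∈ P.filter (fun q => (q.1 : ℤ) - q.2 ∈ D), ((p.1 : ℤ) - p.2) ∈ D := by
    intro p hp
    exact (Finset.mem_filter.mp hp).2
  have hfib : ∀ d ∈ D, (P.filter (fun q => (q.1 : ℤ) - q.2 ∈ D)).filter
      (fun q => (q.1 : ℤ) - q.2 = d) = P.filter (fun q => (q.1 : ℤ) - q.2 = d) := by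
    intro d hd
    ext q
    simp only [Finset.mem_filter]
    constructor
    · rintro ⟨⟨h1, _⟩, h3⟩
      exact ⟨h1, h3⟩
    · rintro ⟨h1, h3⟩
      exact ⟨⟨h1, by rw [h3]; exact hd⟩, h3⟩
  have hsum : ∑ p ∈ P, T ((p.1 : ℤ) - p.2) = ∑ d ∈ D, r d * T d := by
    have h1 : ∑ p ∈ P, T ((p.1 : ℤ) - p.2) =
        ∑ p ∈ P.filter (fun q => (q.1 : ℤ) - q.2 ∈ D), T ((p.1 : ℤ) - p.2) := by
      rw [Finset.sum_filter]
      refine Finset.sum_congr rfl fun p hp => ?_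
      by_cases h : (p.1 : ℤ) - p.2 ∈ D
      · rw [if_pos h]
      · rw [if_neg h]
        by_contra hne
        rw [hP, Finset.mem_product] at hp
        exact h (hD _ hp.1 _ hp.2 hne)
    rw [h1, ← Finset.sum_fiberwise_of_maps_to hmap]
    refine Finset.sum_congr rfl fun d hd => ?_
    rw [hfib d hd]
    rw [Finset.sum_congr rfl (g := fun _ => T d)]
    · rw [Finset.sum_const, nsmul_eq_mul]
    · intro p hp
      rw [(Finset.mem_filter.mp hp).2]
  have hen : ∑ d ∈ D, r d ^ 2 ≤ F := by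
    have h2 : ∑ d ∈ D, r d ^ 2 =
        ∑ p ∈ P.filter (fun q => (q.1 : ℤ) - q.2 ∈ D), r ((p.1 : ℤ) - p.2) := by
      rw [← Finset.sum_fiberwise_of_maps_to hmap]
      refine Finset.sum_congr rfl fun d hd => ?_
      rw [hfib d hd]
      rw [Finset.sum_congr rfl (g := fun _ => r d)]
      · rw [Finset.sum_const, nsmul_eq_mul, sq]
      · intro p hp
        rw [(Finset.mem_filter.mp hp).2]
    rw [h2]
    calc ∑ p ∈ P.filter (fun q => (q.1 : ℤ) - q.2 ∈ D), r ((p.1 : ℤ) - p.2)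
        ≤ ∑ p ∈ P, r ((p.1 : ℤ) - p.2) :=
          Finset.sum_le_sum_of_subset_of_nonneg (Finset.filter_subset _ _)
            (fun p _ _ => by simp only [hr]; positivity)
      _ = ∑ p ∈ S ×ˢ S, (((S ×ˢ S).filter (fun q => q.1 + q.2 = p.1 + p.2)).card : ℝ) :=
          energy_swap S
      _ ≤ F := hF
  rw [hsum]
  calc (∑ d ∈ D, r d * T d) ^ 2 ≤ (∑ d ∈ D, r d ^ 2) * (∑ d ∈ D, T d ^ 2) :=
        Finset.sum_mul_sq_le_sq_mul_sq _ _ _
    _ ≤ F * ∑ d ∈ D, T d ^ 2 :=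
        mul_le_mul_of_nonneg_right hen (Finset.sum_nonneg fun _ _ => sq_nonneg _)

/-- Bound for the energy of a finite subset of `A` when all large `n` have at most `T`
representations as a sum of two elements of `A`. -/
theorem energy_le (A : Set ℕ) (S : Finset ℕ) (hS : ∀ x ∈ S, x ∈ A) (T : ℝ) (hT0 : 0 ≤ T) (n₀ : ℕ)
    (hT : ∀ n, n₀ ≤ n →
      (({p : ℕ × ℕ | p.1 + p.2 = n ∧ p.1 ∈ A ∧ p.2 ∈ A}.ncard : ℕ) : ℝ) ≤ T) :
    ∑ p ∈ S ×ˢ S, (((S ×ˢ S).filter (fun q => q.1 + q.2 = p.1 + p.2)).card : ℝ) ≤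
      T * (S.card : ℝ) ^ 2 + (n₀ : ℝ) ^ 3 := by
  classical
  have hfin : ∀ n : ℕ, {p : ℕ × ℕ | p.1 + p.2 = n ∧ p.1 ∈ A ∧ p.2 ∈ A}.Finite := by
    intro n
    refine Set.Finite.subset (Finset.finite_toSet (Finset.HasAntidiagonal.antidiagonal n)) ?_
    intro p hp
    exact Finset.mem_coe.mpr (Finset.HasAntidiagonal.mem_antidiagonal.mpr hp.1)
  have hle : ∀ n : ℕ, (((S ×ˢ S).filter (fun q => q.1 + q.2 = n)).card : ℝ) ≤
      (({p : ℕ × ℕ | p.1 + p.2 = n ∧ p.1 ∈ A ∧ p.2 ∈ A}.ncard : ℕ) : ℝ) := by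
    intro n
    have : ((S ×ˢ S).filter (fun q => q.1 + q.2 = n)).card ≤
        {p : ℕ × ℕ | p.1 + p.2 = n ∧ p.1 ∈ A ∧ p.2 ∈ A}.ncard := by
      rw [← Set.ncard_coe_finset]
      refine Set.ncard_le_ncard ?_ (hfin n)
      intro p hp
      simp only [Finset.coe_filter, Finset.mem_product, Set.mem_ofPred_eq] at hp ⊢
      exact ⟨hp.2, hS _ hp.1.1, hS _ hp.1.2⟩
    exact_mod_cast this
  have hsmall : ∀ n : ℕ, (((S ×ˢ S).filter (fun q => q.1 + q.2 = n)).card : ℝ) ≤ (n : ℝ) + 1 := by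
    intro n
    have : ((S ×ˢ S).filter (fun q => q.1 + q.2 = n)).card ≤ n + 1 := by
      rw [← Finset.Nat.card_antidiagonal n]
      refine Finset.card_le_card ?_
      intro p hp
      exact Finset.HasAntidiagonal.mem_antidiagonal.mpr (Finset.mem_filter.mp hp).2
    exact_mod_cast this
  have hterm : ∀ p ∈ S ×ˢ S,
      (((S ×ˢ S).filter (fun q => q.1 + q.2 = p.1 + p.2)).card : ℝ) ≤
        T + if p.1 + p.2 < n₀ then (n₀ : ℝ) else 0 := by
    intro p _
    by_cases h : p.1 + p.2 < n₀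
    · rw [if_pos h]
      have h1 := hsmall (p.1 + p.2)
      have h2 : ((p.1 + p.2 : ℕ) : ℝ) + 1 ≤ (n₀ : ℝ) := by exact_mod_cast h
      linarith
    · rw [if_neg h]
      have h1 := hle (p.1 + p.2)
      have h2 := hT (p.1 + p.2) (not_lt.mp h)
      linarith
  calc ∑ p ∈ S ×ˢ S, (((S ×ˢ S).filter (fun q => q.1 + q.2 = p.1 + p.2)).card : ℝ)
      ≤ ∑ p ∈ S ×ˢ S, (T + if p.1 + p.2 < n₀ then (n₀ : ℝ) else 0) := Finset.sum_le_sum hterm
    _ = T * (S.card : ℝ) ^ 2 + (((S ×ˢ S).filter (fun p => p.1 + p.2 < n₀)).card : ℝ) * n₀ := by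
        rw [Finset.sum_add_distrib, Finset.sum_const, Finset.card_product, nsmul_eq_mul,
          ← Finset.sum_filter, Finset.sum_const, nsmul_eq_mul]
        push_cast
        ring
    _ ≤ T * (S.card : ℝ) ^ 2 + (n₀ : ℝ) ^ 3 := by
        have hc : ((S ×ˢ S).filter (fun p => p.1 + p.2 < n₀)).card ≤ n₀ * n₀ := by
          have : ((S ×ˢ S).filter (fun p => p.1 + p.2 < n₀)) ⊆
              Finset.range n₀ ×ˢ Finset.range n₀ := by
            intro p hp
            have h2 := (Finset.mem_filter.mp hp).2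
            rw [Finset.mem_product, Finset.mem_range, Finset.mem_range]
            constructor <;> omega
          calc _ ≤ (Finset.range n₀ ×ˢ Finset.range n₀).card := Finset.card_le_card this
            _ = n₀ * n₀ := by rw [Finset.card_product, Finset.card_range]
        have hc' : (((S ×ˢ S).filter (fun p => p.1 + p.2 < n₀)).card : ℝ) ≤ (n₀ : ℝ) * n₀ := by
          exact_mod_cast hc
        have hn : (0 : ℝ) ≤ n₀ := Nat.cast_nonneg _
        nlinarith [mul_le_mul_of_nonneg_right hc' hn]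

end Pool.Agent.MP_491344_nt.EnergyH96
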