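import Pool.Agent.MP_491344_nt.Growth

/-! The exchange argument: two different pumps of the same lengths give many representations. -/

namespace Pool.Agent.MP_491344_nt

open Filter

variable {T : Type*}

/-- the positional value of a word: `w n i t` is the weight of the letter `t` at position `i` in a
word of length `n` -/
def posVal (w : ℕ → ℕ → T → ℝ) (x : List T) : ℝ :=
  ∑ i : Fin x.length, w x.length i (x.get i)

/-- the number of ordered representations of `n` as a sum of two elements of `A` -/
noncomputable def rep (A : Set ℕ) (n : ℕ) : ℕ :=
  {p : ℕ × ℕ | p.1 + p.2 = n ∧ p.1 ∈ A ∧ p.2 ∈ A}.ncard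

/-- value of a piece placed at position `p` -/
def pv (w : ℕ → T → ℝ) : ℕ → List T → ℝ
  | _, [] => 0
  | p, t :: x => w p t + pv w (p + 1) x

theorem pv_append (w : ℕ → T → ℝ) : ∀ (x y : List T) (p : ℕ),
    pv w p (x ++ y) = pv w p x + pv w (p + x.length) y := by
  intro x
  induction x with
  | nil => intro y p; simp [pv]
  | cons t x ih =>
    intro y p
    simp only [List.cons_append, pv, ih, List.length_cons]
    rw [show p + 1 + x.length = p + (x.length + 1) by ring]
    ring

theorem pv_eq_sum (w : ℕ → T → ℝ) : ∀ (x : List T) (p : ℕ),
    pv w p x = ∑ i : Fin x.length, w (p + i) (x.get i) := by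
  intro x
  induction x with
  | nil => intro p; simp [pv]
  | cons t x ih =>
    intro p
    simp only [pv, ih, List.length_cons]
    rw [Fin.sum_univ_succ]
    simp only [Fin.val_zero, add_zero, List.get_eq_getElem, Fin.val_succ, List.getElem_cons_succ,
      List.getElem_cons_zero]
    congr 1
    refine Finset.sum_congr rfl fun i _ => ?_
    rw [show p + 1 + (i : ℕ) = p + ((i : ℕ) + 1) by ring]

theorem posVal_eq (w : ℕ → ℕ → T → ℝ) (x : List T) : posVal w x = pv (w x.length) 0 x := by
  rw [pv_eq_sum]; simp [posVal]

section Words

variable (γ u v u' v' : List T)

/-- nested words -/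
def word : List Bool → List T
  | [] => γ
  | b :: bs => (if b then u' else u) ++ (word bs ++ (if b then v' else v))

variable {γ u v u' v'}

theorem word_length (hu : u.length = u'.length) (hv : v.length = v'.length) (bs : List Bool) :
    (word γ u v u' v' bs).length = γ.length + bs.length * (u.length + v.length) := by
  induction bs with
  | nil => simp [word]
  | cons b bs ih =>
    cases b <;> simp only [word, List.length_append, ih, List.length_cons, if_true, if_false,
      Bool.false_eq_true] <;> rw [add_mul] <;> omega

theorem word_inj (hu : u.length = u'.length) (hv : v.length = v'.length)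
    (hne : ¬ (u = u' ∧ v = v')) : ∀ bs bs' : List Bool, bs.length = bs'.length →
      word γ u v u' v' bs = word γ u v u' v' bs' → bs = bs' := by
  intro bs
  induction bs with
  | nil => intro bs' h _; simp at h; exact (List.length_eq_zero_iff.mp h.symm).symm
  | cons b bs ih =>
    intro bs' hlen heq
    cases bs' with
    | nil => simp at hlen
    | cons b' bs' =>
      simp only [List.length_cons, add_left_inj] at hlen
      simp only [word] at heq
      have h1 : (if b then u' else u) = (if b' then u' else u) ∧
          word γ u v u' v' bs ++ (if b then v' else v) =
            word γ u v u' v' bs' ++ (if b' then v' else v) := by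
        refine List.append_inj heq ?_
        cases b <;> cases b' <;> simp [hu]
      have h2 : word γ u v u' v' bs = word γ u v u' v' bs' ∧
          (if b then v' else v) = (if b' then v' else v) := by
        refine List.append_inj h1.2 ?_
        rw [word_length hu hv, word_length hu hv, hlen]
      have hb : b = b' := by
        cases b <;> cases b' <;> simp_all
      rw [hb, ih bs' hlen h2.1]

theorem pv_word (w : ℕ → T → ℝ) (hu : u.length = u'.length) (hv : v.length = v'.length) :
    ∀ (bs bs' : List Bool) (p : ℕ), bs.length = bs'.length →
      pv w p (word γ u v u' v' bs) + pv w p (word γ u v u' v' (bs.map not)) =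
      pv w p (word γ u v u' v' bs') + pv w p (word γ u v u' v' (bs'.map not)) := by
  intro bs
  induction bs with
  | nil =>
    intro bs' p h
    have : bs' = [] := List.length_eq_zero_iff.mp h.symm
    rw [this]
  | cons b bs ih =>
    intro bs' p hlen
    cases bs' with
    | nil => simp at hlen
    | cons b' bs' =>
      simp only [List.length_cons, add_left_inj] at hlen
      have hI := ih bs' (p + u.length) hlen
      have key : ∀ (c : Bool) (cs : List Bool),
          pv w p (word γ u v u' v' (c :: cs)) + pv w p (word γ u v u' v' ((c :: cs).map not)) =
          pv w p u + pv w p u' + (pv w (p + u.length) (word γ u v u' v' cs) +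
            pv w (p + u.length) (word γ u v u' v' (cs.map not))) +
          (pv w (p + u.length + (γ.length + cs.length * (u.length + v.length))) v +
            pv w (p + u.length + (γ.length + cs.length * (u.length + v.length))) v') := by
        intro c cs
        cases c
        · simp only [List.map_cons, word, pv_append, Bool.not_false, if_true, if_false,
            Bool.false_eq_true, word_length hu hv, List.length_map, ← hu]
          ring
        · simp only [List.map_cons, word, pv_append, Bool.not_true, if_true, if_false,
            Bool.false_eq_true, word_length hu hv, List.length_map, ← hu]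
          ring
      rw [key, key, hI, hlen]

end Words

/-- A family of words indexed by binary words. -/
structure Exch (L : Language T) where
  /-- length of the common part -/
  c₀ : ℕ
  /-- length of one block -/
  c₁ : ℕ
  hc₁ : 1 ≤ c₁
  /-- the words -/
  W : List Bool → List T
  mem : ∀ bs, W bs ∈ L
  len : ∀ bs, (W bs).length = c₀ + bs.length * c₁
  inj : ∀ bs bs', bs.length = bs'.length → W bs = W bs' → bs = bs'
  sym : ∀ (w : ℕ → ℕ → T → ℝ) (bs bs' : List Bool), bs.length = bs'.length →
    posVal w (W bs) + posVal w (W (bs.map not)) = posVal w (W bs') + posVal w (W (bs'.map not))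

open ContextFreeGrammar in
theorem exists_exch {L : Language T} (hL : L.IsContextFree)
    (h : ¬ PolyBd List.length (fun w => w ∈ L)) : Nonempty (Exch L) := by
  obtain ⟨g, rfl⟩ := hL
  obtain ⟨X, α, β, γ, u, v, u', v', hα, hγ, hp, hp', hu, hv, hne⟩ := exists_pumps h
  have hword : ∀ bs : List Bool,
      g.Derives [Symbol.nonterminal X] (tm (word γ u v u' v' bs)) := by
    intro bs
    induction bs with
    | nil => exact hγ
    | cons b bs ih =>
      have hP : Pump X (if b then u' else u) (if b then v' else v) := by
        cases b
        · exact hp
        · exact hp'
      have h1 := (ih.append_left (tm (if b then u' else u))).append_right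
        (tm (if b then v' else v))
      have h2 := Derives.trans hP h1
      simpa [word, tm] using h2
  have hmem : ∀ bs, α ++ (word γ u v u' v' bs ++ β) ∈ g.language := by
    intro bs
    rw [mem_language_iff]
    have h1 := ((hword bs).append_left (tm α)).append_right (tm β)
    have h2 := hα.trans h1
    simpa [tm] using h2
  refine ⟨⟨α.length + γ.length + β.length, u.length + v.length, ?_,
    fun bs => α ++ (word γ u v u' v' bs ++ β), hmem, ?_, ?_, ?_⟩⟩
  · by_contra hlt
    have h1 : u.length = 0 := by omega
    have h2 : v.length = 0 := by omega
    apply hne
    rw [List.length_eq_zero_iff.mp h1, List.length_eq_zero_iff.mp h2]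
    rw [h1] at hu
    rw [h2] at hv
    exact ⟨(List.length_eq_zero_iff.mp hu.symm).symm, (List.length_eq_zero_iff.mp hv.symm).symm⟩
  · intro bs
    simp only [List.length_append, word_length hu hv]
    ring
  · intro bs bs' hlen heq
    have h1 := List.append_cancel_left heq
    have h2 := List.append_cancel_right h1
    exact word_inj hu hv hne bs bs' hlen h2
  · intro w bs bs' hlen
    simp only [posVal_eq, List.length_append, word_length hu hv, List.length_map, pv_append]
    have h1 := pv_word (γ := γ) (w (α.length + (γ.length + bs.length * (u.length + v.length) +
      β.length))) hu hv bs bs' (0 + α.length) hlen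
    rw [hlen] at h1 ⊢
    linarith

end Pool.Agent.MP_491344_nt
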