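import Mathlib

set_option autoImplicit false

namespace Pool.Agent.MP_491344_nt.ForcingIsOpenEnded

open Filter Topology

/-- Indicator of a subset of `ℕ` as a Boolean sequence: the associated set. -/
private def toSet (a : ℕ → Bool) : Set ℕ := {n | a n = true}

private lemma ncard_Icc (a : ℕ → Bool) (N : ℕ) :
    ((toSet a ∩ Set.Icc 1 N).ncard : ℝ) = ∑ n ∈ Finset.Icc 1 N, (if a n = true then (1:ℝ) else 0) := by
  have h : (toSet a ∩ Set.Icc 1 N) = ((Finset.Icc 1 N).filter (fun n => a n = true) : Finset ℕ) := by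
    ext n
    simp only [toSet, Set.mem_inter_iff, Set.mem_ofPred_eq, Set.mem_Icc, Finset.coe_filter,
      Finset.mem_Icc]
    tauto
  rw [h, Set.ncard_coe_finset, Finset.card_filter]
  push_cast
  rfl

private lemma ncard_rep (a : ℕ → Bool) (n : ℕ) :
    ({p : ℕ × ℕ | p.1 + p.2 = n ∧ p.1 ∈ toSet a ∧ p.2 ∈ toSet a}.ncard : ℝ) =
      ∑ p ∈ Finset.HasAntidiagonal.antidiagonal n, (if (a p.1 = true ∧ a p.2 = true) then (1:ℝ) else 0) := by
  have h : {p : ℕ × ℕ | p.1 + p.2 = n ∧ p.1 ∈ toSet a ∧ p.2 ∈ toSet a} =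
      ((Finset.HasAntidiagonal.antidiagonal n).filter (fun p => a p.1 = true ∧ a p.2 = true) : Finset (ℕ × ℕ)) := by
    ext p
    simp [toSet]
  rw [h, Set.ncard_coe_finset, Finset.card_filter]
  push_cast
  rfl

private lemma cont_Icc (N : ℕ) :
    Continuous (fun a : ℕ → Bool => ∑ n ∈ Finset.Icc 1 N, (if a n = true then (1:ℝ) else 0)) := by
  refine continuous_finsetSum _ (fun n _ => ?_)
  have : (fun a : ℕ → Bool => (if a n = true then (1:ℝ) else 0)) =
      (fun b : Bool => (if b = true then (1:ℝ) else 0)) ∘ (fun a : ℕ → Bool => a n) := rfl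
  rw [this]
  exact (continuous_of_discreteTopology).comp (continuous_apply n)

private lemma cont_rep (n : ℕ) :
    Continuous (fun a : ℕ → Bool =>
      ∑ p ∈ Finset.HasAntidiagonal.antidiagonal n, (if (a p.1 = true ∧ a p.2 = true) then (1:ℝ) else 0)) := by
  refine continuous_finsetSum _ (fun p _ => ?_)
  have : (fun a : ℕ → Bool => (if (a p.1 = true ∧ a p.2 = true) then (1:ℝ) else 0)) =
      (fun b : Bool × Bool => (if (b.1 = true ∧ b.2 = true) then (1:ℝ) else 0)) ∘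
        (fun a : ℕ → Bool => (a p.1, a p.2)) := rfl
  rw [this]
  exact (continuous_of_discreteTopology).comp ((continuous_apply p.1).prodMk (continuous_apply p.2))

/-- Compactness step. -/
private lemma compact_step (w : ℕ → ℝ) (h N₁ : ℕ)
    (H : ∀ A : Set ℕ, (∀ N, N₁ ≤ N → w N ≤ ((A ∩ Set.Icc 1 N).ncard : ℝ)) →
      ∃ n, h ≤ {p : ℕ × ℕ | p.1 + p.2 = n ∧ p.1 ∈ A ∧ p.2 ∈ A}.ncard) :
    ∃ N₂, N₁ ≤ N₂ ∧ ∀ A : Set ℕ, (∀ N, N₁ ≤ N → N ≤ N₂ → w N ≤ ((A ∩ Set.Icc 1 N).ncard : ℝ)) →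
      ∃ n, h ≤ {p : ℕ × ℕ | p.1 + p.2 = n ∧ p.1 ∈ A ∧ p.2 ∈ A}.ncard := by
  classical
  by_contra hcon
  push Not at hcon
  let K : ℕ → Set (ℕ → Bool) := fun k =>
    {a | (∀ N, N₁ ≤ N → N ≤ N₁ + k → w N ≤ ((toSet a ∩ Set.Icc 1 N).ncard : ℝ)) ∧
      ∀ n, ({p : ℕ × ℕ | p.1 + p.2 = n ∧ p.1 ∈ toSet a ∧ p.2 ∈ toSet a}.ncard : ℝ) + 1 ≤ h}
  have hclosed : ∀ k, IsClosed (K k) := by
    intro k
    have : K k = (⋂ N, ⋂ (_ : N₁ ≤ N), ⋂ (_ : N ≤ N₁ + k),
        {a : ℕ → Bool | w N ≤ ∑ n ∈ Finset.Icc 1 N, (if a n = true then (1:ℝ) else 0)}) ∩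
        ⋂ n, {a : ℕ → Bool |
          (∑ p ∈ Finset.HasAntidiagonal.antidiagonal n, (if (a p.1 = true ∧ a p.2 = true) then (1:ℝ) else 0)) + 1
            ≤ (h:ℝ)} := by
      ext a
      simp only [K, Set.mem_ofPred_eq, Set.mem_inter_iff, Set.mem_iInter, ncard_Icc, ncard_rep]
    rw [this]
    refine IsClosed.inter ?_ ?_
    · exact isClosed_iInter fun N => isClosed_iInter fun _ => isClosed_iInter fun _ =>
        isClosed_le continuous_const (cont_Icc N)
    · exact isClosed_iInter fun n => isClosed_le ((cont_rep n).add continuous_const) continuous_const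
  have hne : ∀ k, (K k).Nonempty := by
    intro k
    obtain ⟨A, hA1, hA2⟩ := hcon (N₁ + k) (Nat.le_add_right _ _)
    refine ⟨fun n => decide (n ∈ A), ?_⟩
    have hA : toSet (fun n => decide (n ∈ A)) = A := by
      ext n; simp [toSet]
    simp only [K, Set.mem_ofPred_eq, hA]
    refine ⟨hA1, fun n => ?_⟩
    have := hA2 n
    exact_mod_cast this
  have hmono : ∀ k, K (k + 1) ⊆ K k := by
    intro k a ha
    exact ⟨fun N h1 h2 => ha.1 N h1 (by omega), ha.2⟩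
  obtain ⟨a, ha⟩ := IsCompact.nonempty_iInter_of_sequence_nonempty_isCompact_isClosed K hmono hne
    (hclosed 0).isCompact hclosed
  rw [Set.mem_iInter] at ha
  obtain ⟨n, hn⟩ := H (toSet a) (fun N hN => (ha N).1 N hN (by omega))
  have h1 := (ha 0).2 n
  have h2 : ({p : ℕ × ℕ | p.1 + p.2 = n ∧ p.1 ∈ toSet a ∧ p.2 ∈ toSet a}.ncard : ℝ) ≥ h := by
    exact_mod_cast hn
  linarith

/-- A weight `g > 0` forces unbounded representations if and only if `g φ` does for some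
`φ → ∞`.  With `g = 1` the right-hand side is Q1. -/
theorem result (g : ℕ → ℝ) (hg : ∀ N, 0 < g N) :
    (∀ A : Set ℕ,
      (∃ c : ℝ, 0 < c ∧ ∀ᶠ N : ℕ in atTop,
        c * Real.sqrt (N : ℝ) / g N ≤ ((A ∩ Set.Icc 1 N).ncard : ℝ)) →
      ∀ M : ℕ, ∃ n : ℕ, M ≤ {p : ℕ × ℕ | p.1 + p.2 = n ∧ p.1 ∈ A ∧ p.2 ∈ A}.ncard) ↔
    ∃ φ : ℕ → ℝ, Tendsto φ atTop atTop ∧
      ∀ A : Set ℕ,
        (∃ c : ℝ, 0 < c ∧ ∀ᶠ N : ℕ in atTop,
          c * Real.sqrt (N : ℝ) / (g N * φ N) ≤ ((A ∩ Set.Icc 1 N).ncard : ℝ)) →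
        ∀ M : ℕ, ∃ n : ℕ, M ≤ {p : ℕ × ℕ | p.1 + p.2 = n ∧ p.1 ∈ A ∧ p.2 ∈ A}.ncard := by
  constructor
  · intro hF
    -- thresholds
    have step : ∀ h N₁ : ℕ, ∃ N₂, N₁ ≤ N₂ ∧ ∀ A : Set ℕ,
        (∀ N, N₁ ≤ N → N ≤ N₂ →
          (1 / ((h:ℝ) + 1)) * Real.sqrt (N : ℝ) / g N ≤ ((A ∩ Set.Icc 1 N).ncard : ℝ)) →
        ∃ n, h ≤ {p : ℕ × ℕ | p.1 + p.2 = n ∧ p.1 ∈ A ∧ p.2 ∈ A}.ncard := by
      intro h N₁
      refine compact_step (fun N => (1 / ((h:ℝ) + 1)) * Real.sqrt (N : ℝ) / g N) h N₁ ?_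
      intro A hA
      refine hF A ⟨1 / ((h:ℝ) + 1), by positivity, ?_⟩ h
      filter_upwards [eventually_ge_atTop N₁] with N hN using hA N hN
    choose T hT1 hT2 using step
    let m : ℕ → ℕ := fun k => Nat.rec 0 (fun h x => T h x + 1) k
    have hm : ∀ k, m (k + 1) = T k (m k) + 1 := fun k => rfl
    have hmlt : ∀ k, m k < m (k + 1) := by
      intro k; rw [hm]; exact Nat.lt_succ_of_le (hT1 _ _)
    have hmono : StrictMono m := strictMono_nat_of_lt_succ hmlt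
    let idx : ℕ → ℕ := fun N => @Nat.findGreatest (fun k => m k ≤ N) (fun k => Nat.decLe (m k) N) N
    have hidx : ∀ k N, m k ≤ N → N < m (k + 1) → idx N = k := by
      intro k N h1 h2
      show @Nat.findGreatest (fun k => m k ≤ N) (fun k => Nat.decLe (m k) N) N = k
      rw [@Nat.findGreatest_eq_iff _ _ (fun k => m k ≤ N) (fun k => Nat.decLe (m k) N)]
      refine ⟨le_trans (hmono.id_le k) h1, fun _ => h1, ?_⟩
      intro j hj _ hjN
      have : m (k + 1) ≤ m j := hmono.monotone hj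
      omega
    have hidxge : ∀ k N, m k ≤ N → k ≤ idx N := by
      intro k N h1
      exact @Nat.le_findGreatest _ (fun k => m k ≤ N) (fun k => Nat.decLe (m k) N) _
        (le_trans (hmono.id_le k) h1) h1
    refine ⟨fun N => Real.sqrt ((idx N : ℝ) + 1), ?_, ?_⟩
    · rw [tendsto_atTop_atTop]
      intro b
      obtain ⟨k, hk⟩ := exists_nat_ge (b ^ 2)
      refine ⟨m k, fun N hN => ?_⟩
      have h1 : (k : ℝ) ≤ idx N := by exact_mod_cast hidxge k N hN
      apply Real.le_sqrt_of_sq_le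
      linarith
    · rintro A ⟨c, hc, hA⟩ M
      rw [eventually_atTop] at hA
      obtain ⟨N₀, hN₀⟩ := hA
      obtain ⟨k, hk⟩ := exists_nat_ge (1 / c ^ 2)
      -- choose the block
      let h := max (max M N₀) k
      have hM : M ≤ h := le_trans (le_max_left _ _) (le_max_left _ _)
      have hN0h : N₀ ≤ h := le_trans (le_max_right _ _) (le_max_left _ _)
      have hkh : k ≤ h := le_max_right _ _
      have hmh : N₀ ≤ m h := le_trans hN0h (hmono.id_le h)
      obtain ⟨n, hn⟩ := hT2 h (m h) A (by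
        intro N h1 h2
        have hi : idx N = h := hidx h N h1 (by rw [hm]; omega)
        refine le_trans ?_ (hN₀ N (le_trans hmh h1))
        simp only [hi]
        have hpos : (0:ℝ) < (h:ℝ) + 1 := by positivity
        have hs : 0 < Real.sqrt ((h:ℝ) + 1) := Real.sqrt_pos.mpr hpos
        have hss : Real.sqrt ((h:ℝ) + 1) * Real.sqrt ((h:ℝ) + 1) = (h:ℝ) + 1 :=
          Real.mul_self_sqrt hpos.le
        have hcs : 1 ≤ c * Real.sqrt ((h:ℝ) + 1) := by
          have h3 : 1 / c ^ 2 ≤ (h:ℝ) + 1 := by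
            have : (k:ℝ) ≤ h := by exact_mod_cast hkh
            linarith
          have h4 : 1 / c ≤ Real.sqrt ((h:ℝ) + 1) := by
            apply Real.le_sqrt_of_sq_le
            rw [div_pow, one_pow]
            exact h3
          rw [div_le_iff₀ hc] at h4
          linarith
        have e1 : 1 / ((h:ℝ) + 1) * Real.sqrt (N:ℝ) / g N =
            (Real.sqrt (N:ℝ) / g N) * (1 / ((h:ℝ) + 1)) := by ring
        have e2 : c * Real.sqrt (N:ℝ) / (g N * Real.sqrt ((h:ℝ) + 1)) =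
            (Real.sqrt (N:ℝ) / g N) * (c / Real.sqrt ((h:ℝ) + 1)) := by
          field_simp
        rw [e1, e2]
        refine mul_le_mul_of_nonneg_left ?_ (div_nonneg (Real.sqrt_nonneg _) (hg N).le)
        rw [div_le_div_iff₀ hpos hs]
        nlinarith)
      exact ⟨n, le_trans hM hn⟩
  · rintro ⟨φ, hφ, hF⟩ A ⟨c, hc, hA⟩
    refine hF A ⟨c, hc, ?_⟩
    filter_upwards [hA, hφ.eventually_ge_atTop 1] with N h1 h2
    refine le_trans ?_ h1
    have hgN := hg N
    apply div_le_div_of_nonneg_left (by positivity) hgN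
    nlinarith

end Pool.Agent.MP_491344_nt.ForcingIsOpenEnded
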