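import Mathlib

/-! Polynomial growth and the growth of context-free languages. -/

namespace Pool.Agent.MP_491344_nt

open Classical

/-- The objects satisfying `P` have polynomial growth with respect to the length `len`. -/
def PolyBd {β : Type*} (len : β → ℕ) (P : β → Prop) : Prop :=
  ∃ C d : ℕ, ∀ n, ∃ F : Finset β, (∀ b, P b → len b ≤ n → b ∈ F) ∧ F.card ≤ C * (n + 1) ^ d

namespace PolyBd

variable {β γ δ : Type*}

theorem mono {len : β → ℕ} {P Q : β → Prop} (h : ∀ b, P b → Q b) (hQ : PolyBd len Q) :
    PolyBd len P := by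
  obtain ⟨C, d, hF⟩ := hQ
  refine ⟨C, d, fun n => ?_⟩
  obtain ⟨F, h1, h2⟩ := hF n
  exact ⟨F, fun b hb hn => h1 b (h b hb) hn, h2⟩

theorem of_empty {len : β → ℕ} {P : β → Prop} (h : ∀ b, ¬ P b) : PolyBd len P :=
  ⟨0, 0, fun _ => ⟨∅, fun b hb _ => absurd hb (h b), by simp⟩⟩

theorem singleton (len : β → ℕ) (b₀ : β) : PolyBd len (fun b => b = b₀) :=
  ⟨1, 0, fun _ => ⟨{b₀}, fun b hb _ => by simp [hb], by simp⟩⟩

/-- binary combination -/
theorem image2 {lb : β → ℕ} {lc : γ → ℕ} {ld : δ → ℕ} {P : β → Prop} {Q : γ → Prop}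
    {R : δ → Prop} (f : β → γ → δ) (hP : PolyBd lb P) (hQ : PolyBd lc Q)
    (h : ∀ x, R x → ∃ b c, x = f b c ∧ P b ∧ Q c ∧ lb b ≤ ld x ∧ lc c ≤ ld x) : PolyBd ld R := by
  obtain ⟨C, d, hF⟩ := hP
  obtain ⟨C', d', hF'⟩ := hQ
  refine ⟨C * C', d + d', fun n => ?_⟩
  obtain ⟨F, h1, h2⟩ := hF n
  obtain ⟨F', h1', h2'⟩ := hF' n
  refine ⟨(F ×ˢ F').image fun p => f p.1 p.2, fun x hx hn => ?_, ?_⟩
  · obtain ⟨b, c, rfl, hb, hc, hlb, hlc⟩ := h x hx
    exact Finset.mem_image.mpr ⟨(b, c), Finset.mem_product.mpr
      ⟨h1 b hb (hlb.trans hn), h1' c hc (hlc.trans hn)⟩, rfl⟩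
  · calc ((F ×ˢ F').image fun p => f p.1 p.2).card ≤ (F ×ˢ F').card := Finset.card_image_le
      _ = F.card * F'.card := Finset.card_product _ _
      _ ≤ (C * (n + 1) ^ d) * (C' * (n + 1) ^ d') := Nat.mul_le_mul h2 h2'
      _ = C * C' * (n + 1) ^ (d + d') := by ring

/-- finite unions -/
theorem biUnion {ι : Type*} (s : Finset ι) {len : β → ℕ} {P : ι → β → Prop} {Q : β → Prop}
    (h : ∀ i ∈ s, PolyBd len (P i)) (hQ : ∀ b, Q b → ∃ i ∈ s, P i b) : PolyBd len Q := by
  choose! C d hF using h
  choose! F hF using hF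
  refine ⟨∑ i ∈ s, C i, ∑ i ∈ s, d i, fun n => ⟨s.biUnion fun i => F i n, fun b hb hn => ?_, ?_⟩⟩
  · obtain ⟨i, hi, hPi⟩ := hQ b hb
    exact Finset.mem_biUnion.mpr ⟨i, hi, (hF i hi n).1 b hPi hn⟩
  · calc (s.biUnion fun i => F i n).card ≤ ∑ i ∈ s, (F i n).card := Finset.card_biUnion_le
      _ ≤ ∑ i ∈ s, C i * (n + 1) ^ (∑ i ∈ s, d i) := by
        refine Finset.sum_le_sum fun i hi => (hF i hi n).2.trans ?_
        refine Nat.mul_le_mul_left _ (Nat.pow_le_pow_right (Nat.succ_pos n) ?_)
        exact Finset.single_le_sum (f := d) (fun _ _ => Nat.zero_le _) hi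
      _ = (∑ i ∈ s, C i) * (n + 1) ^ (∑ i ∈ s, d i) := by rw [Finset.sum_mul]

/-- pairs of words determined by their lengths -/
theorem pairs {T : Type*} {P : List T → List T → Prop}
    (h : ∀ u v u' v', P u v → P u' v' → u.length = u'.length → v.length = v'.length →
      u = u' ∧ v = v') :
    PolyBd (fun p : List T × List T => p.1.length + p.2.length) (fun p => P p.1 p.2) := by
  by_cases hne : ∃ p : List T × List T, P p.1 p.2
  · obtain ⟨p₀, -⟩ := hne
    set F : ℕ → ℕ → List T × List T := fun i j =>
      if hij : ∃ p : List T × List T, P p.1 p.2 ∧ p.1.length = i ∧ p.2.length = j then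
        hij.choose else p₀ with hFdef
    refine ⟨1, 2, fun n => ⟨((Finset.range (n + 1)) ×ˢ (Finset.range (n + 1))).image
      fun q => F q.1 q.2, fun p hp hn => ?_, ?_⟩⟩
    · have hn' : p.1.length + p.2.length ≤ n := hn
      refine Finset.mem_image.mpr ⟨(p.1.length, p.2.length), ?_, ?_⟩
      · simp only [Finset.mem_product, Finset.mem_range]; constructor <;> omega
      · have hex : ∃ q : List T × List T, P q.1 q.2 ∧ q.1.length = p.1.length ∧
          q.2.length = p.2.length := ⟨p, hp, rfl, rfl⟩
        have : F p.1.length p.2.length = hex.choose := by rw [hFdef]; simp only [dif_pos hex]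
        simp only [this]
        have hs := hex.choose_spec
        obtain ⟨h1, h2⟩ := h _ _ _ _ hs.1 hp hs.2.1 hs.2.2
        exact Prod.ext h1 h2
    · calc _ ≤ ((Finset.range (n + 1)) ×ˢ (Finset.range (n + 1))).card := Finset.card_image_le
        _ = 1 * (n + 1) ^ 2 := by rw [Finset.card_product, Finset.card_range]; ring
  · exact of_empty fun p hp => hne ⟨p, hp⟩

end PolyBd

open ContextFreeGrammar

variable {T : Type*} (g : ContextFreeGrammar T)

/-- a terminal word as a sentential form -/
abbrev tm {g : ContextFreeGrammar T} (w : List T) : List (Symbol T g.NT) :=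
  w.map Symbol.terminal

/-- the sentential form derives the word with all rewritten nonterminals in `S` -/
inductive Gen (S : Set g.NT) : List (Symbol T g.NT) → List T → Prop
  | nil : Gen S [] []
  | term (t : T) {s : List (Symbol T g.NT)} {w : List T} :
      Gen S s w → Gen S (Symbol.terminal t :: s) (t :: w)
  | nonterm (r : ContextFreeRule T g.NT) (hr : r ∈ g.rules) (hS : r.input ∈ S)
      {s : List (Symbol T g.NT)} {w₁ w₂ : List T} :
      Gen S r.output w₁ → Gen S s w₂ → Gen S (Symbol.nonterminal r.input :: s) (w₁ ++ w₂)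

variable {g}

theorem Gen.split {S : Set g.NT} : ∀ {a b : List (Symbol T g.NT)} {w : List T},
    Gen g S (a ++ b) w → ∃ w₁ w₂, w = w₁ ++ w₂ ∧ Gen g S a w₁ ∧ Gen g S b w₂ := by
  intro a
  induction a with
  | nil => intro b w h; exact ⟨[], w, rfl, Gen.nil, h⟩
  | cons x a ih =>
    intro b w h
    rw [List.cons_append] at h
    cases h with
    | term t h1 =>
      obtain ⟨w₁, w₂, rfl, h2, h3⟩ := ih h1
      exact ⟨t :: w₁, w₂, rfl, Gen.term t h2, h3⟩
    | nonterm r hr hS h1 h2 =>
      obtain ⟨w₁, w₂, rfl, h3, h4⟩ := ih h2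
      exact ⟨_ ++ w₁, w₂, by rw [List.append_assoc], Gen.nonterm r hr hS h1 h3, h4⟩

theorem Gen.append {S : Set g.NT} {a b : List (Symbol T g.NT)} {w₁ w₂ : List T}
    (h1 : Gen g S a w₁) (h2 : Gen g S b w₂) : Gen g S (a ++ b) (w₁ ++ w₂) := by
  induction h1 with
  | nil => exact h2
  | term t _ ih => exact Gen.term t ih
  | nonterm r hr hS h3 _ _ ih =>
    rw [List.cons_append, List.append_assoc]
    exact Gen.nonterm r hr hS h3 ih

theorem Gen.tm {S : Set g.NT} (w : List T) : Gen g S (tm w) w := by
  induction w with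
  | nil => exact Gen.nil
  | cons t w ih => exact Gen.term t ih

theorem Gen.derives {S : Set g.NT} {s : List (Symbol T g.NT)} {w : List T}
    (h : Gen g S s w) : g.Derives s (Pool.Agent.MP_491344_nt.tm w) := by
  induction h with
  | nil => exact Derives.refl _
  | term t _ ih => exact ih.append_left [Symbol.terminal t]
  | @nonterm r hr hS s w₁ w₂ h1 h2 ih1 ih2 =>
    have h3 : g.Produces (Symbol.nonterminal r.input :: s) (r.output ++ s) :=
      ⟨r, hr, ContextFreeRule.Rewrites.head s⟩
    refine h3.trans_derives ?_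
    rw [Pool.Agent.MP_491344_nt.tm, List.map_append]
    exact (ih1.append_right s).trans (ih2.append_left _)

/-- the nonterminals with a rule -/
noncomputable def inputs (g : ContextFreeGrammar T) : Finset g.NT :=
  g.rules.image fun r => r.input

theorem Gen.of_derives {s : List (Symbol T g.NT)} {w : List T}
    (h : g.Derives s (Pool.Agent.MP_491344_nt.tm w)) : Gen g (inputs g : Set g.NT) s w := by
  induction h using Relation.ReflTransGen.head_induction_on with
  | refl => exact Gen.tm w
  | head h1 _ ih =>
    obtain ⟨r, hr, hrw⟩ := h1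
    obtain ⟨p, q, rfl, rfl⟩ := hrw.exists_parts
    obtain ⟨w', w₃, rfl, h2, h3⟩ := ih.split
    obtain ⟨w₁, w₂, rfl, h4, h5⟩ := h2.split
    refine (h4.append ?_).append h3
    have h6 := Gen.nonterm (S := (inputs g : Set g.NT)) r hr
      (by simp only [inputs, Finset.coe_image, Set.mem_image, Finset.mem_coe]; exact ⟨r, hr, rfl⟩)
      h5 Gen.nil
    simpa using h6

/-- Either the nonterminal `X` is not used, or there is a use of `X` inside which `X` is not used
again. -/
theorem Gen.decomp {S : Set g.NT} (X : g.NT) {s : List (Symbol T g.NT)} {w : List T}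
    (h : Gen g S s w) : Gen g (S \ {X}) s w ∨ ∃ (u v w' : List T) (r : ContextFreeRule T g.NT),
      r ∈ g.rules ∧ r.input = X ∧ w = u ++ w' ++ v ∧
      g.Derives s (Pool.Agent.MP_491344_nt.tm u ++ [Symbol.nonterminal X] ++
        Pool.Agent.MP_491344_nt.tm v) ∧ Gen g (S \ {X}) r.output w' := by
  induction h with
  | nil => exact Or.inl Gen.nil
  | term t _ ih =>
    rcases ih with ih | ⟨u, v, w', r, hr, hrX, rfl, hd, hG⟩
    · exact Or.inl (Gen.term t ih)
    · exact Or.inr ⟨t :: u, v, w', r, hr, hrX, rfl, hd.append_left [Symbol.terminal t], hG⟩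
  | @nonterm r hr hS s w₁ w₂ h1 h2 ih1 ih2 =>
    have h3 : g.Produces (Symbol.nonterminal r.input :: s) (r.output ++ s) :=
      ⟨r, hr, ContextFreeRule.Rewrites.head s⟩
    rcases ih1 with ih1 | ⟨u, v, w', r', hr', hrX, rfl, hd, hG⟩
    · by_cases hX : r.input = X
      · refine Or.inr ⟨[], w₂, w₁, r, hr, hX, by simp, ?_, ih1⟩
        rw [hX]
        simpa using (h2.derives).append_left [Symbol.nonterminal X]
      · rcases ih2 with ih2 | ⟨u, v, w', r', hr', hrX, rfl, hd, hG⟩
        · have hS' : r.input ∈ S \ {X} := ⟨hS, hX⟩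
          exact Or.inl (Gen.nonterm r hr hS' ih1 ih2)
        · refine Or.inr ⟨w₁ ++ u, v, w', r', hr', hrX, by simp, ?_, hG⟩
          refine h3.trans_derives ?_
          have h4 := (h1.derives.append_right s).trans
            (hd.append_left (Pool.Agent.MP_491344_nt.tm w₁))
          simpa using h4
    · refine Or.inr ⟨u, v ++ w₂, w', r', hr', hrX, by simp, ?_, hG⟩
      refine h3.trans_derives ?_
      have h4 := (hd.append_right s).trans (h2.derives.append_left
        (Pool.Agent.MP_491344_nt.tm u ++ [Symbol.nonterminal X] ++ Pool.Agent.MP_491344_nt.tm v))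
      simpa using h4

/-- the sentential form occurs in a derivation of the grammar between terminal words -/
def Acc (s : List (Symbol T g.NT)) : Prop :=
  ∃ α β : List T, g.Derives [Symbol.nonterminal g.initial] (tm α ++ s ++ tm β)

/-- `X` derives `u X v` -/
def Pump (X : g.NT) (u v : List T) : Prop :=
  g.Derives [Symbol.nonterminal X] (tm u ++ [Symbol.nonterminal X] ++ tm v)

/-- uniqueness of the pumps with given lengths, for useful nonterminals -/
def UniquePumps (g : ContextFreeGrammar T) : Prop :=
  ∀ X : g.NT, Acc (g := g) [Symbol.nonterminal X] →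
    (∃ γ : List T, g.Derives [Symbol.nonterminal X] (tm γ)) →
    ∀ u v u' v' : List T, Pump X u v → Pump X u' v' → u.length = u'.length →
      v.length = v'.length → u = u' ∧ v = v'

theorem polyBd_form {S : Set g.NT}
    (hS : ∀ X : g.NT, Acc (g := g) [Symbol.nonterminal X] →
      PolyBd List.length (fun w => Gen g S [Symbol.nonterminal X] w)) :
    ∀ s : List (Symbol T g.NT), Acc s → PolyBd List.length (fun w => Gen g S s w) := by
  intro s
  induction s with
  | nil =>
    intro _
    refine (PolyBd.singleton List.length []).mono ?_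
    intro b hb
    cases hb
    rfl
  | cons x s ih =>
    intro hacc
    by_cases hne : ∃ w, Gen g S (x :: s) w
    · obtain ⟨w, hw⟩ := hne
      obtain ⟨α, β, hd⟩ := hacc
      have hsplit : ∃ w₁ w₂, Gen g S [x] w₁ ∧ Gen g S s w₂ := by
        have : Gen g S ([x] ++ s) w := hw
        obtain ⟨w₁, w₂, -, h1, h2⟩ := this.split
        exact ⟨w₁, w₂, h1, h2⟩
      obtain ⟨w₁, w₂, hw1, hw2⟩ := hsplit
      have hs : Acc (g := g) s := by
        refine ⟨α ++ w₁, β, hd.trans ?_⟩
        have h4 := ((hw1.derives.append_left (tm α)).append_right (s ++ tm β))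
        simpa using h4
      have hx : Acc (g := g) [x] := by
        refine ⟨α, w₂ ++ β, hd.trans ?_⟩
        have h4 := ((hw2.derives.append_left (tm α ++ [x])).append_right (tm β))
        simpa using h4
      have hPx : PolyBd List.length (fun w => Gen g S [x] w) := by
        cases x with
        | terminal t =>
          refine (PolyBd.singleton List.length [t]).mono ?_
          intro b hb
          cases hb with
          | term t h => cases h; rfl
        | nonterminal X => exact hS X hx
      refine PolyBd.image2 (fun a b => a ++ b) hPx (ih hs) ?_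
      intro w hw
      have : Gen g S ([x] ++ s) w := hw
      obtain ⟨w₁, w₂, rfl, h1, h2⟩ := this.split
      exact ⟨w₁, w₂, rfl, h1, h2, by simp, by simp⟩
    · exact PolyBd.of_empty fun w hw => hne ⟨w, hw⟩

theorem polyBd_gen (hU : UniquePumps g) : ∀ (n : ℕ) (S : Finset g.NT), S.card = n →
    ∀ X : g.NT, Acc (g := g) [Symbol.nonterminal X] →
      PolyBd List.length (fun w => Gen g (S : Set g.NT) [Symbol.nonterminal X] w) := by
  intro n
  induction n with
  | zero =>
    intro S hS X _
    refine PolyBd.of_empty fun w hw => ?_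
    rw [Finset.card_eq_zero] at hS
    subst hS
    cases hw with
    | nonterm r hr hS _ _ => simp at hS
  | succ n ih =>
    intro S hS X hacc
    by_cases hX : X ∈ S
    · have hcard : (S.erase X).card = n := by rw [Finset.card_erase_of_mem hX]; omega
      have hcoe : ((S : Set g.NT) \ {X}) = ((S.erase X : Finset g.NT) : Set g.NT) := by simp
      by_cases hprod : ∃ γ : List T, g.Derives [Symbol.nonterminal X] (tm γ)
      · have hpairs := PolyBd.pairs (P := fun u v => Pump X u v) (hU X hacc hprod)
        -- words below the deepest use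
        have hrest : PolyBd List.length (fun w' : List T => ∃ r ∈ g.rules,
            r.input = X ∧ Gen g ((S : Set g.NT) \ {X}) r.output w') := by
          refine PolyBd.biUnion (g.rules.filter fun r => r.input = X)
            (P := fun r w' => Gen g ((S : Set g.NT) \ {X}) r.output w') ?_ ?_
          · intro r hr
            rw [Finset.mem_filter] at hr
            refine polyBd_form (g := g) ?_ r.output ?_
            · intro Y hY
              rw [hcoe]
              exact ih (S.erase X) hcard Y hY
            · obtain ⟨α, β, hd⟩ := hacc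
              refine ⟨α, β, hd.trans ?_⟩
              have h3 : g.Produces [Symbol.nonterminal X] r.output := by
                have := ContextFreeRule.Rewrites.input_output (r := r)
                rw [hr.2] at this
                exact ⟨r, hr.1, this⟩
              exact (h3.single.append_left (tm α)).append_right (tm β)
          · rintro w' ⟨r, hr, hrX, hG⟩
            exact ⟨r, Finset.mem_filter.mpr ⟨hr, hrX⟩, hG⟩
        refine PolyBd.image2 (fun (p : List T × List T) w' => p.1 ++ w' ++ p.2) hpairs hrest ?_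
        intro w hw
        rcases hw.decomp X with h | ⟨u, v, w', r, hr, hrX, rfl, hd, hG⟩
        · exfalso
          cases h with
          | nonterm r hr hS _ _ => exact hS.2 rfl
        · refine ⟨(u, v), w', rfl, hd, ⟨r, hr, hrX, hG⟩, ?_, ?_⟩
          · simp only [List.length_append]; omega
          · simp only [List.length_append]; omega
      · refine PolyBd.of_empty fun w hw => hprod ⟨w, hw.derives⟩
    · refine PolyBd.of_empty fun w hw => ?_
      cases hw with
      | nonterm r hr hS _ _ => exact hX (Finset.mem_coe.mp hS)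

/-- A context-free language of superpolynomial growth has a useful nonterminal with two
different pumps of the same lengths. -/
theorem exists_pumps (h : ¬ PolyBd List.length (fun w => w ∈ g.language)) :
    ∃ (X : g.NT) (α β γ u v u' v' : List T),
      g.Derives [Symbol.nonterminal g.initial] (tm α ++ [Symbol.nonterminal X] ++ tm β) ∧
      g.Derives [Symbol.nonterminal X] (tm γ) ∧ Pump X u v ∧ Pump X u' v' ∧
      u.length = u'.length ∧ v.length = v'.length ∧ ¬ (u = u' ∧ v = v') := by
  by_contra hcon
  apply h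
  have hU : UniquePumps g := by
    intro X ⟨α, β, hacc⟩ ⟨γ, hγ⟩ u v u' v' hp hp' h1 h2
    by_contra hne
    exact hcon ⟨X, α, β, γ, u, v, u', v', hacc, hγ, hp, hp', h1, h2, hne⟩
  refine (polyBd_gen hU _ (inputs g) rfl g.initial ⟨[], [], by simpa using Derives.refl _⟩).mono ?_
  intro w hw
  exact Gen.of_derives hw

end Pool.Agent.MP_491344_nt
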