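import Pool.Agent.MP_491344_nt.EnergyH96

set_option autoImplicit false

namespace Pool.Agent.MP_491344_nt.ModH96

open Finset Pool.Agent.MP_491344_nt.EnergyH96

/-- The window of differences. -/
noncomputable def D (N : ℕ) : Finset ℤ := Finset.Ioc (-(N : ℤ)) ((N : ℤ) - 1)

/-- Number of multiples of `m` in the window. -/
noncomputable def cnt (N m : ℕ) : ℝ := (((D N).filter (fun d => (m : ℤ) ∣ d)).card : ℝ)

lemma cnt_bounds (N m : ℕ) (hN : 1 ≤ N) (hm : 1 ≤ m) :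
    (2 * (N:ℝ) - 1) / m - 1 ≤ cnt N m ∧ cnt N m ≤ (2 * (N:ℝ) - 1) / m + 1 := by
  have hm0 : (0:ℤ) < m := by exact_mod_cast hm
  have hmR : (0:ℝ) < m := by exact_mod_cast hm
  have hNR : (1:ℝ) ≤ N := by exact_mod_cast hN
  have h1 := Int.Ioc_filter_dvd_card (-(N : ℤ)) ((N : ℤ) - 1) (r := (m:ℤ)) hm0
  have h2 : cnt N m = (max (⌊(((N : ℤ) - 1 : ℤ) : ℚ) / ((m:ℤ):ℚ)⌋ - ⌊((-(N : ℤ) : ℤ) : ℚ) / ((m:ℤ):ℚ)⌋) 0 : ℤ) := by
    rw [cnt, D]
    exact_mod_cast h1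
  have h3 : ⌊((-(N : ℤ) : ℤ) : ℚ) / ((m:ℤ):ℚ)⌋ ≤ ⌊(((N : ℤ) - 1 : ℤ) : ℚ) / ((m:ℤ):ℚ)⌋ := by
    apply Int.floor_le_floor
    apply div_le_div_of_nonneg_right _ (by exact_mod_cast hm0.le)
    have : (-(N:ℤ)) ≤ (N:ℤ) - 1 := by omega
    exact_mod_cast this
  rw [max_eq_left (by linarith)] at h2
  have e1 : ⌊(((N : ℤ) - 1 : ℤ) : ℚ) / ((m:ℤ):ℚ)⌋ = ⌊((N : ℝ) - 1) / m⌋ := by
    have h := Rat.floor_cast (α := ℝ) ((((N : ℤ) - 1 : ℤ) : ℚ) / ((m:ℤ):ℚ))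
    rw [← h]
    push_cast
    rfl
  have e2 : ⌊((-(N : ℤ) : ℤ) : ℚ) / ((m:ℤ):ℚ)⌋ = ⌊(-(N : ℝ)) / m⌋ := by
    have h := Rat.floor_cast (α := ℝ) (((-(N : ℤ) : ℤ) : ℚ) / ((m:ℤ):ℚ))
    rw [← h]
    push_cast
    rfl
  rw [e1, e2] at h2
  have f1 := Int.floor_le (((N : ℝ) - 1) / m)
  have f2 := Int.lt_floor_add_one (((N : ℝ) - 1) / m)
  have f3 := Int.floor_le ((-(N : ℝ)) / m)
  have f4 := Int.lt_floor_add_one ((-(N : ℝ)) / m)
  have f5 : ((N:ℝ) - 1) / m - (-(N : ℝ)) / m = (2 * (N:ℝ) - 1) / m := by ring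
  rw [h2]
  push_cast
  constructor <;> linarith

/-- The cross term. -/
noncomputable def ind (q : ℕ) (d : ℤ) : ℝ := (if (q : ℤ) ∣ d then (1:ℝ) else 0) - 1 / q

lemma sum_ind (N q : ℕ) : ∑ d ∈ D N, (if (q : ℤ) ∣ d then (1:ℝ) else 0) = cnt N q := by
  rw [← sum_filter, sum_const, nsmul_eq_mul, mul_one, cnt]

lemma card_D (N : ℕ) (hN : 1 ≤ N) : ((D N).card : ℝ) = 2 * N - 1 := by
  rw [D, Int.card_Ioc]
  have : (((N:ℤ) - 1 - -(N:ℤ)).toNat : ℤ) = 2 * N - 1 := by omega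
  exact_mod_cast this

lemma cross_coprime (N q q' : ℕ) (hN : 1 ≤ N) (hq : 2 ≤ q) (hq' : 2 ≤ q') (hc : Nat.Coprime q q') :
    ∑ d ∈ D N, ind q d * ind q' d ≤ 2 := by
  have hqR : (2:ℝ) ≤ q := by exact_mod_cast hq
  have hqR' : (2:ℝ) ≤ q' := by exact_mod_cast hq'
  have h1 : ∀ d : ℤ, ind q d * ind q' d = (if ((q * q' : ℕ) : ℤ) ∣ d then (1:ℝ) else 0)
      - (if (q : ℤ) ∣ d then (1:ℝ) else 0) / q' - (if (q' : ℤ) ∣ d then (1:ℝ) else 0) / q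
      + 1 / q * (1 / q') := by
    intro d
    have h2 : ((q * q' : ℕ) : ℤ) ∣ d ↔ ((q : ℤ) ∣ d ∧ (q' : ℤ) ∣ d) := by
      push_cast
      constructor
      · intro h
        exact ⟨dvd_trans (Dvd.intro _ rfl) h, dvd_trans (Dvd.intro_left _ rfl) h⟩
      · rintro ⟨ha, hb⟩
        exact IsCoprime.mul_dvd (Nat.isCoprime_iff_coprime.mpr hc) ha hb
    unfold ind
    by_cases ha : (q : ℤ) ∣ d
    · by_cases hb : (q' : ℤ) ∣ d
      · rw [if_pos ha, if_pos hb, if_pos (h2.mpr ⟨ha, hb⟩)]; ring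
      · rw [if_pos ha, if_neg hb, if_neg (fun h => hb (h2.mp h).2)]; ring
    · by_cases hb : (q' : ℤ) ∣ d
      · rw [if_neg ha, if_pos hb, if_neg (fun h => ha (h2.mp h).1)]; ring
      · rw [if_neg ha, if_neg hb, if_neg (fun h => ha (h2.mp h).1)]; ring
  rw [sum_congr rfl (fun d _ => h1 d), sum_add_distrib, sum_sub_distrib, sum_sub_distrib,
    ← sum_div, ← sum_div, sum_ind, sum_ind, sum_ind, sum_const, nsmul_eq_mul, card_D N hN]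
  obtain ⟨_, u1⟩ := cnt_bounds N (q * q') hN (by nlinarith)
  obtain ⟨u2, _⟩ := cnt_bounds N q hN (by omega)
  obtain ⟨u3, _⟩ := cnt_bounds N q' hN (by omega)
  have hq0 : (0:ℝ) < q := by linarith
  have hq0' : (0:ℝ) < q' := by linarith
  have v2 : ((2 * (N:ℝ) - 1) / q - 1) / q' ≤ cnt N q / q' := div_le_div_of_nonneg_right u2 hq0'.le
  have v3 : ((2 * (N:ℝ) - 1) / q' - 1) / q ≤ cnt N q' / q := div_le_div_of_nonneg_right u3 hq0.le
  have i1 : 1 / (q:ℝ) ≤ 1 / 2 := one_div_le_one_div_of_le (by norm_num) hqR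
  have i2 : 1 / (q':ℝ) ≤ 1 / 2 := one_div_le_one_div_of_le (by norm_num) hqR'
  have e2 : ((2 * (N:ℝ) - 1) / q - 1) / q' = (2 * (N:ℝ) - 1) / ((q * q' : ℕ) : ℝ) - 1 / q' := by
    push_cast; field_simp
  have e3 : ((2 * (N:ℝ) - 1) / q' - 1) / q = (2 * (N:ℝ) - 1) / ((q * q' : ℕ) : ℝ) - 1 / q := by
    push_cast; field_simp
  have e4 : (2 * (N:ℝ) - 1) * (1 / q * (1 / q')) = (2 * (N:ℝ) - 1) / ((q * q' : ℕ) : ℝ) := by
    push_cast; field_simp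
  rw [e2] at v2
  rw [e3] at v3
  rw [e4]
  linarith

lemma cross_self (N q : ℕ) (hN : 1 ≤ N) (hq : 2 ≤ q) :
    ∑ d ∈ D N, ind q d * ind q d ≤ 2 * N / q + 2 := by
  have hqR : (2:ℝ) ≤ q := by exact_mod_cast hq
  have hNR : (1:ℝ) ≤ N := by exact_mod_cast hN
  have h1 : ∀ d : ℤ, ind q d * ind q d = (if (q : ℤ) ∣ d then (1:ℝ) else 0) * (1 - 2 / q)
      + 1 / q * (1 / q) := by
    intro d
    unfold ind
    by_cases ha : (q : ℤ) ∣ d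
    · rw [if_pos ha]; ring
    · rw [if_neg ha]; ring
  rw [sum_congr rfl (fun d _ => h1 d), sum_add_distrib, ← sum_mul, sum_ind, sum_const,
    nsmul_eq_mul, card_D N hN]
  obtain ⟨_, u1⟩ := cnt_bounds N q hN (by omega)
  have hq0 : (0:ℝ) < q := by linarith
  have i0 : 0 ≤ 1 - 2 / (q:ℝ) := by
    rw [sub_nonneg, div_le_one hq0]; exact hqR
  have i1 : 1 - 2 / (q:ℝ) ≤ 1 := by
    have : 0 ≤ 2 / (q:ℝ) := by positivity
    linarith
  have h2 : cnt N q * (1 - 2 / q) ≤ ((2 * (N:ℝ) - 1) / q + 1) * (1 - 2 / q) :=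
    mul_le_mul_of_nonneg_right u1 i0
  have h3 : ((2 * (N:ℝ) - 1) / q + 1) * (1 - 2 / q) + (2 * (N:ℝ) - 1) * (1 / q * (1 / q)) ≤
      2 * N / q + 2 := by
    have e : ((2 * (N:ℝ) - 1) / q + 1) * (1 - 2 / q) + (2 * (N:ℝ) - 1) * (1 / q * (1 / q)) =
        2 * N / q + 2 - (1 / q + (2 * N - 1) / (q * q) + 1 + 2 / q) := by
      field_simp; ring
    rw [e]
    have : 0 ≤ 1 / (q:ℝ) + (2 * N - 1) / (q * q) + 1 + 2 / q := by
      have : 0 ≤ (2 * (N:ℝ) - 1) / (q * q) := div_nonneg (by linarith) (by positivity)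
      positivity
    linarith
  linarith

/-- Finite inequality: excess of congruent pairs modulo pairwise coprime moduli. -/
theorem mod_finite (N : ℕ) (hN : 1 ≤ N) (Q : Finset ℕ) (hQ2 : ∀ q ∈ Q, 2 ≤ q)
    (hQN : (Q.card : ℝ) ^ 2 ≤ N)
    (hQ : ∀ q ∈ Q, ∀ q' ∈ Q, q ≠ q' → Nat.Coprime q q') (κ : ℕ → ℝ) (hκ0 : ∀ q, 0 ≤ κ q)
    (hκ1 : ∀ q, κ q ≤ 1) (S : Finset ℕ) (hS : ∀ a ∈ S, 1 ≤ a ∧ a ≤ N) (F : ℝ)
    (hF : ∑ p ∈ S ×ˢ S, (((S ×ˢ S).filter (fun q => q.1 + q.2 = p.1 + p.2)).card : ℝ) ≤ F)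
    (hA : ∀ q ∈ Q, (1 + κ q) * (S.card : ℝ) ^ 2 ≤
      q * (((S ×ˢ S).filter (fun p => p.1 ≡ p.2 [MOD q])).card : ℝ)) :
    ((∑ q ∈ Q, κ q ^ 2 / q) * (S.card : ℝ) ^ 2) ^ 2 ≤
      F * (2 * N * ((∑ q ∈ Q, κ q ^ 2 / q) + 1)) := by
  classical
  set L : ℝ := ∑ q ∈ Q, κ q ^ 2 / q with hL
  have hNR : (1:ℝ) ≤ N := by exact_mod_cast hN
  have htest := test_ineq S (fun d => ∑ q ∈ Q, κ q * ind q d) (D N) (by
    intro a ha a' ha' _
    have h1 := hS a ha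
    have h2 := hS a' ha'
    rw [D, mem_Ioc]
    constructor <;> omega) F hF
  have hlow : L * (S.card : ℝ) ^ 2 ≤ ∑ p ∈ S ×ˢ S, ∑ q ∈ Q, κ q * ind q ((p.1:ℤ) - p.2) := by
    rw [sum_comm, hL, sum_mul]
    refine sum_le_sum fun q hq => ?_
    rw [← mul_sum]
    have hq2 := hQ2 q hq
    have hq0 : (0:ℝ) < q := by exact_mod_cast (by omega : 0 < q)
    have h1 : ∑ p ∈ S ×ˢ S, ind q ((p.1:ℤ) - p.2) =
        (((S ×ˢ S).filter (fun p => p.1 ≡ p.2 [MOD q])).card : ℝ) - (S.card : ℝ) ^ 2 / q := by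
      unfold ind
      rw [sum_sub_distrib, sum_const, nsmul_eq_mul, card_product, ← sum_filter, sum_const,
        nsmul_eq_mul, mul_one]
      have h3 : (S ×ˢ S).filter (fun p => (q:ℤ) ∣ ((p.1:ℤ) - p.2)) =
          (S ×ˢ S).filter (fun p => p.1 ≡ p.2 [MOD q]) := by
        ext p
        simp only [mem_filter, and_congr_right_iff]
        intro _
        rw [Nat.ModEq.comm, Nat.modEq_iff_dvd]
      rw [h3]
      push_cast
      ring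
    rw [h1]
    have h2 := hA q hq
    have h4 : κ q * (S.card : ℝ) ^ 2 / q ≤
        (((S ×ˢ S).filter (fun p => p.1 ≡ p.2 [MOD q])).card : ℝ) - (S.card : ℝ) ^ 2 / q := by
      rw [div_le_iff₀ hq0, sub_mul, div_mul_cancel₀ _ hq0.ne']
      linarith
    calc κ q ^ 2 / q * (S.card : ℝ) ^ 2 = κ q * (κ q * (S.card : ℝ) ^ 2 / q) := by ring
      _ ≤ _ := mul_le_mul_of_nonneg_left h4 (hκ0 q)
  have hup : ∑ d ∈ D N, (∑ q ∈ Q, κ q * ind q d) ^ 2 ≤ 2 * N * (L + 1) := by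
    have h1 : ∀ d, (∑ q ∈ Q, κ q * ind q d) ^ 2 =
        ∑ q ∈ Q, ∑ q' ∈ Q, (κ q * κ q') * (ind q d * ind q' d) := by
      intro d
      rw [sq, sum_mul_sum]
      refine sum_congr rfl fun q _ => sum_congr rfl fun q' _ => ?_
      ring
    rw [sum_congr rfl (fun d _ => h1 d), sum_comm]
    have h2 : ∀ q ∈ Q, ∑ d ∈ D N, ∑ q' ∈ Q, (κ q * κ q') * (ind q d * ind q' d) ≤
        κ q ^ 2 / q * (2 * N) + 2 * (κ q * ∑ q' ∈ Q, κ q') := by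
      intro q hq
      rw [sum_comm]
      have h3 : ∀ q' ∈ Q, ∑ d ∈ D N, (κ q * κ q') * (ind q d * ind q' d) ≤
          (if q' = q then κ q ^ 2 / q * (2 * N) else 0) + 2 * (κ q * κ q') := by
        intro q' hq'
        rw [← mul_sum]
        by_cases h : q' = q
        · rw [if_pos h, h]
          have := cross_self N q hN (hQ2 q hq)
          calc _ ≤ (κ q * κ q) * (2 * N / q + 2) :=
                mul_le_mul_of_nonneg_left this (mul_nonneg (hκ0 _) (hκ0 _))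
            _ = _ := by ring
        · rw [if_neg h]
          have := cross_coprime N q q' hN (hQ2 q hq) (hQ2 q' hq') (hQ q hq q' hq' (Ne.symm h))
          calc _ ≤ (κ q * κ q') * 2 :=
                mul_le_mul_of_nonneg_left this (mul_nonneg (hκ0 _) (hκ0 _))
            _ = _ := by ring
      calc _ ≤ ∑ q' ∈ Q, ((if q' = q then κ q ^ 2 / q * (2 * N) else 0) + 2 * (κ q * κ q')) :=
            sum_le_sum h3
        _ = _ := by
          rw [sum_add_distrib, sum_ite_eq' Q q, if_pos hq, ← mul_sum, ← mul_sum]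
    calc _ ≤ ∑ q ∈ Q, (κ q ^ 2 / q * (2 * N) + 2 * (κ q * ∑ q' ∈ Q, κ q')) := sum_le_sum h2
      _ = L * (2 * N) + 2 * ((∑ q ∈ Q, κ q) * ∑ q' ∈ Q, κ q') := by
          rw [sum_add_distrib, ← sum_mul, ← mul_sum, ← sum_mul]
      _ ≤ 2 * N * (L + 1) := by
          have h4 : ∑ q ∈ Q, κ q ≤ Q.card := by
            calc ∑ q ∈ Q, κ q ≤ ∑ q ∈ Q, (1:ℝ) := sum_le_sum fun q _ => hκ1 q
              _ = Q.card := by simp
          have h5 : 0 ≤ ∑ q ∈ Q, κ q := sum_nonneg fun q _ => hκ0 q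
          have h6 : (∑ q ∈ Q, κ q) * ∑ q' ∈ Q, κ q' ≤ N := by
            calc _ ≤ (Q.card : ℝ) * Q.card := mul_le_mul h4 h4 h5 (Nat.cast_nonneg _)
              _ = (Q.card : ℝ) ^ 2 := by ring
              _ ≤ N := hQN
          linarith
  have hF0 : 0 ≤ F := le_trans (sum_nonneg fun p _ => by positivity) hF
  have hL0 : 0 ≤ L := by
    rw [hL]; exact sum_nonneg fun q _ => by positivity
  calc (L * (S.card : ℝ) ^ 2) ^ 2 ≤
        (∑ p ∈ S ×ˢ S, ∑ q ∈ Q, κ q * ind q ((p.1:ℤ) - p.2)) ^ 2 :=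
          pow_le_pow_left₀ (by positivity) hlow 2
    _ ≤ F * ∑ d ∈ D N, (∑ q ∈ Q, κ q * ind q d) ^ 2 := htest
    _ ≤ F * (2 * N * (L + 1)) := mul_le_mul_of_nonneg_left hup hF0

end Pool.Agent.MP_491344_nt.ModH96
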