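import Pool.Agent.MP_491344_nt.Exchange

/-! Many representations from an exchange family. -/

namespace Pool.Agent.MP_491344_nt

open Filter Topology

variable {T : Type*}

theorem rep_finite (A : Set ℕ) (n : ℕ) :
    {p : ℕ × ℕ | p.1 + p.2 = n ∧ p.1 ∈ A ∧ p.2 ∈ A}.Finite := by
  refine (Set.finite_Icc ((0, 0) : ℕ × ℕ) (n, n)).subset ?_
  rintro ⟨a, b⟩ ⟨h, -, -⟩
  simp only at h
  simp only [Set.mem_Icc, Prod.mk_le_mk]
  omega

theorem rep_le (A : Set ℕ) (n : ℕ) : rep A n ≤ n + 1 := by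
  have h1 : {p : ℕ × ℕ | p.1 + p.2 = n ∧ p.1 ∈ A ∧ p.2 ∈ A} ⊆
      (fun a => (a, n - a)) '' (Finset.range (n + 1) : Set ℕ) := by
    rintro ⟨a, b⟩ ⟨h, -, -⟩
    simp only at h
    refine ⟨a, by simp; omega, ?_⟩
    simp only [Prod.mk.injEq, true_and]
    omega
  calc rep A n ≤ ((fun a => (a, n - a)) '' (Finset.range (n + 1) : Set ℕ)).ncard :=
        Set.ncard_le_ncard h1 ((Finset.finite_toSet _).image _)
    _ ≤ (Finset.range (n + 1) : Set ℕ).ncard := Set.ncard_image_le (Finset.finite_toSet _)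
    _ = n + 1 := by rw [Set.ncard_coe_finset, Finset.card_range]

theorem pigeon {ι : Type*} (B : Finset ι) (S : ι → ℕ) (I : Finset ℕ)
    (hne : B.Nonempty) (hS : ∀ b ∈ B, S b ∈ I) :
    ∃ s ∈ I, B.card ≤ I.card * (B.filter fun b => S b = s).card := by
  classical
  by_contra hcon
  push Not at hcon
  have h1 : B.card = ∑ s ∈ I, (B.filter fun b => S b = s).card :=
    Finset.card_eq_sum_card_fiberwise hS
  have hI : I.Nonempty := by
    obtain ⟨b, hb⟩ := hne
    exact ⟨S b, hS b hb⟩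
  have h2 : ∑ s ∈ I, I.card * (B.filter fun b => S b = s).card < ∑ _s ∈ I, B.card :=
    Finset.sum_lt_sum_of_nonempty hI fun s hs => hcon s hs
  rw [← Finset.mul_sum, ← h1, Finset.sum_const, smul_eq_mul] at h2
  exact lt_irrefl _ h2

/-- Finite form. -/
theorem reps_of_exch {A : Set ℕ} {L : Language T} (E : Exch L) (w : ℕ → ℕ → T → ℝ)
    (f : List T → ℕ) (K d μ : ℕ) (hf : ∀ x ∈ L, f x ∈ A)
    (herr : ∀ x ∈ L, |(f x : ℝ) - posVal w x| ≤ ((K * (x.length + 1) ^ d : ℕ) : ℝ))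
    (hfib : ∀ n a, {x : List T | x ∈ L ∧ x.length = n ∧ f x = a}.encard ≤
      ((K * (n + 1) ^ d : ℕ) : ℕ∞))
    (hup : ∀ x ∈ L, f x ≤ K * μ ^ x.length) (m : ℕ) :
    ∃ s : ℕ, 2 ^ m ≤ (8 * (K * (E.c₀ + m * E.c₁ + 1) ^ d) + 1) *
      ((K * (E.c₀ + m * E.c₁ + 1) ^ d) * rep A s) ∧ s ≤ 2 * (K * μ ^ (E.c₀ + m * E.c₁)) := by
  classical
  set l := E.c₀ + m * E.c₁ with hl
  set e := K * (l + 1) ^ d with he
  -- the words
  set X : (Fin m → Bool) → List T := fun b => E.W (List.ofFn b) with hX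
  have hlen : ∀ b, (X b).length = l := fun b => by rw [hX, hl]; simp [E.len]
  set Y : (Fin m → Bool) → List T := fun b => E.W ((List.ofFn b).map not) with hY
  have hlenY : ∀ b, (Y b).length = l := fun b => by rw [hY, hl]; simp [E.len]
  have hXm : ∀ b, X b ∈ L := fun b => E.mem _
  have hYm : ∀ b, Y b ∈ L := fun b => E.mem _
  have hXinj : Function.Injective X := by
    intro b b' h
    exact List.ofFn_injective (E.inj _ _ (by simp) h)
  set S : (Fin m → Bool) → ℕ := fun b => f (X b) + f (Y b) with hS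
  have hSS : ∀ b b', |(S b : ℝ) - S b'| ≤ 4 * e := by
    intro b b'
    have h1 := herr _ (hXm b)
    have h2 := herr _ (hYm b)
    have h3 := herr _ (hXm b')
    have h4 := herr _ (hYm b')
    rw [hlen, ← he] at h1 h3
    rw [hlenY, ← he] at h2 h4
    have h5 := E.sym w (List.ofFn b) (List.ofFn b') (by simp)
    have h6 : posVal w (X b) + posVal w (Y b) = posVal w (X b') + posVal w (Y b') := h5
    rw [abs_le] at *
    simp only [hS]
    push_cast
    constructor <;> linarith [h1.1, h1.2, h2.1, h2.2, h3.1, h3.2, h4.1, h4.2]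
  set b₀ : Fin m → Bool := fun _ => false with hb₀
  have hmaps : ∀ b ∈ (Finset.univ : Finset (Fin m → Bool)),
      S b ∈ Finset.Icc (S b₀ - 4 * e) (S b₀ + 4 * e) := by
    intro b _
    have h := abs_le.mp (hSS b b₀)
    rw [Finset.mem_Icc]
    constructor
    · have : (S b₀ : ℝ) ≤ S b + 4 * e := by linarith [h.1]
      have : S b₀ ≤ S b + 4 * e := by exact_mod_cast this
      omega
    · have : (S b : ℝ) ≤ S b₀ + 4 * e := by linarith [h.2]
      exact_mod_cast this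
  obtain ⟨s, -, hs⟩ := pigeon Finset.univ S _ ⟨b₀, Finset.mem_univ _⟩ hmaps
  have hcard : (Finset.univ : Finset (Fin m → Bool)).card = 2 ^ m := by simp
  rw [hcard] at hs
  set B := Finset.univ.filter fun b => S b = s with hB
  have hBne : B.Nonempty := by
    by_contra hne
    rw [Finset.not_nonempty_iff_eq_empty] at hne
    rw [hne] at hs
    simp at hs
  -- fibres of the first summand
  have hfibB : B.card ≤ e * (B.image fun b => f (X b)).card := by
    refine Finset.card_le_mul_card_image _ _ fun a _ => ?_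
    have h1 : ((B.filter fun b => f (X b) = a).image X : Finset (List T)).card =
        (B.filter fun b => f (X b) = a).card := Finset.card_image_of_injective _ hXinj
    rw [← h1]
    have h2 : (((B.filter fun b => f (X b) = a).image X : Finset (List T)) : Set (List T)) ⊆
        {x : List T | x ∈ L ∧ x.length = l ∧ f x = a} := by
      intro x hx
      rw [Finset.mem_coe, Finset.mem_image] at hx
      obtain ⟨b, hb, rfl⟩ := hx
      rw [Finset.mem_filter] at hb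
      exact ⟨hXm b, hlen b, hb.2⟩
    have h3 := (Set.encard_le_encard h2).trans (hfib l a)
    rw [Set.encard_coe_eq_coe_finsetCard] at h3
    exact_mod_cast h3
  have hrep : (B.image fun b => f (X b)).card ≤ rep A s := by
    have h1 : ((fun a => (a, s - a)) '' ((B.image fun b => f (X b) : Finset ℕ) : Set ℕ)) ⊆
        {p : ℕ × ℕ | p.1 + p.2 = s ∧ p.1 ∈ A ∧ p.2 ∈ A} := by
      rintro p ⟨a, ha, rfl⟩
      rw [Finset.mem_coe, Finset.mem_image] at ha
      obtain ⟨b, hb, rfl⟩ := ha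
      rw [hB, Finset.mem_filter] at hb
      have hSb : f (X b) + f (Y b) = s := hb.2
      have h4 : s - f (X b) = f (Y b) := by omega
      refine ⟨by simp only; omega, hf _ (hXm b), ?_⟩
      simp only [h4]
      exact hf _ (hYm b)
    have hinj : Function.Injective fun a => (a, s - a) := by
      intro a a' h
      exact (Prod.mk.inj h).1
    calc (B.image fun b => f (X b)).card
        = ((B.image fun b => f (X b) : Finset ℕ) : Set ℕ).ncard := (Set.ncard_coe_finset _).symm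
      _ = ((fun a => (a, s - a)) '' ((B.image fun b => f (X b) : Finset ℕ) : Set ℕ)).ncard :=
        (Set.ncard_image_of_injective _ hinj).symm
      _ ≤ rep A s := Set.ncard_le_ncard h1 (rep_finite A s)
  refine ⟨s, ?_, ?_⟩
  · calc 2 ^ m ≤ (Finset.Icc (S b₀ - 4 * e) (S b₀ + 4 * e)).card * B.card := hs
      _ ≤ (8 * e + 1) * (e * rep A s) := by
        refine Nat.mul_le_mul ?_ (hfibB.trans (Nat.mul_le_mul_left _ hrep))
        rw [Nat.card_Icc]; omega
  · obtain ⟨b, hb⟩ := hBne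
    rw [hB, Finset.mem_filter] at hb
    have hSb : f (X b) + f (Y b) = s := hb.2
    have h1 := hup _ (hXm b)
    have h2 := hup _ (hYm b)
    rw [hlen] at h1
    rw [hlenY] at h2
    omega

theorem reps_asymptotic {A : Set ℕ} {L : Language T} (E : Exch L) (w : ℕ → ℕ → T → ℝ)
    (f : List T → ℕ) (K d μ : ℕ) (hf : ∀ x ∈ L, f x ∈ A)
    (herr : ∀ x ∈ L, |(f x : ℝ) - posVal w x| ≤ ((K * (x.length + 1) ^ d : ℕ) : ℝ))
    (hfib : ∀ n a, {x : List T | x ∈ L ∧ x.length = n ∧ f x = a}.encard ≤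
      ((K * (n + 1) ^ d : ℕ) : ℕ∞))
    (hup : ∀ x ∈ L, f x ≤ K * μ ^ x.length) :
    ∃ δ : ℝ, 0 < δ ∧ ∀ N₀ : ℕ, ∃ n, N₀ ≤ n ∧ (n : ℝ) ^ δ ≤ rep A n := by
  set c := E.c₀ + E.c₁ + 1 with hc
  set r : ℝ := Real.sqrt 2 with hr
  have hr2 : r ^ 2 = 2 := Real.sq_sqrt (by norm_num)
  have hr0 : 0 < r := Real.sqrt_pos.mpr (by norm_num)
  have hr1 : 1 < r := by
    rw [hr, Real.lt_sqrt (by norm_num)]; norm_num
  -- the loss is subexponential
  set e : ℕ → ℕ := fun m => K * (E.c₀ + m * E.c₁ + 1) ^ d with he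
  have hebd : ∀ m, e m ≤ K * c ^ d * (m + 1) ^ d := by
    intro m
    rw [he, mul_assoc, ← mul_pow]
    refine Nat.mul_le_mul_left _ (Nat.pow_le_pow_left ?_ _)
    rw [hc]; nlinarith
  set D : ℕ := 9 * (K * c ^ d + 1) ^ 2 with hD
  have hloss : ∀ m, (8 * e m + 1) * e m ≤ D * (m + 1) ^ (2 * d) := by
    intro m
    have h1 := hebd m
    have h2 : 1 ≤ (m + 1) ^ d := Nat.one_le_pow _ _ (Nat.succ_pos m)
    set q := (m + 1) ^ d
    set k := K * c ^ d
    have h3 : e m ≤ k * q := h1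
    have h4 : (m + 1) ^ (2 * d) = q * q := by rw [two_mul, pow_add]
    rw [h4, hD]
    have h5 : 8 * e m + 1 ≤ 9 * ((k + 1) * q) := by nlinarith
    have h6 : e m ≤ (k + 1) * q := by nlinarith
    calc (8 * e m + 1) * e m ≤ (9 * ((k + 1) * q)) * ((k + 1) * q) := Nat.mul_le_mul h5 h6
      _ = 9 * (k + 1) ^ 2 * (q * q) := by ring
  have hsub : ∀ᶠ m : ℕ in atTop, ((D * (m + 1) ^ (2 * d) : ℕ) : ℝ) ≤ r ^ m := by
    have h1 := tendsto_pow_const_div_const_pow_of_one_lt (2 * d) hr1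
    have h2 : Tendsto (fun m : ℕ => ((m + 1 : ℕ) : ℝ) ^ (2 * d) / r ^ (m + 1)) atTop (𝓝 0) :=
      h1.comp (tendsto_add_atTop_nat 1)
    have h3 : (0 : ℝ) < 1 / ((D + 1) * r) := by positivity
    filter_upwards [h2.eventually (gt_mem_nhds h3)] with m hm
    have h4 : 0 < r ^ m := by positivity
    rw [div_lt_iff₀ (by positivity), pow_succ] at hm
    have h5 : (1 / (((D : ℝ) + 1) * r)) * (r ^ m * r) = r ^ m / (D + 1) := by
      field_simp
    rw [h5, lt_div_iff₀ (by positivity)] at hm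
    push_cast
    push_cast at hm
    have h6 : (0 : ℝ) ≤ ((m : ℝ) + 1) ^ (2 * d) := by positivity
    nlinarith
  -- the base of the upper bound
  set M : ℝ := (2 * K + 2) * ((μ : ℝ) + 2) ^ (E.c₀ + E.c₁) with hM
  have hM1 : 1 < M := by
    have h1 : (1 : ℝ) ≤ ((μ : ℝ) + 2) ^ (E.c₀ + E.c₁) :=
      one_le_pow₀ (by have : (0 : ℝ) ≤ μ := Nat.cast_nonneg μ; linarith)
    have h2 : (0 : ℝ) ≤ K := Nat.cast_nonneg K
    rw [hM]; nlinarith
  have hM0 : 0 < M := by linarith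
  set δ := Real.logb M r with hδ
  have hδ0 : 0 < δ := Real.logb_pos hM1 hr1
  have hMδ : M ^ δ = r := Real.rpow_logb hM0 hM1.ne' hr0
  refine ⟨δ, hδ0, fun N₀ => ?_⟩
  have hbig : ∀ᶠ m : ℕ in atTop, (N₀ : ℝ) + 2 ≤ r ^ m :=
    (tendsto_pow_atTop_atTop_of_one_lt hr1).eventually_ge_atTop _
  obtain ⟨m, hm1, hm2, hm3⟩ := (hsub.and (hbig.and (eventually_ge_atTop 1))).exists
  obtain ⟨s, hs1, hs2⟩ := reps_of_exch E w f K d μ hf herr hfib hup m
  have hrep : r ^ m ≤ (rep A s : ℝ) := by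
    have h1 : ((2 : ℝ)) ^ m ≤ ((8 * e m + 1) * e m : ℕ) * (rep A s : ℝ) := by
      have h2 : 2 ^ m ≤ ((8 * e m + 1) * e m) * rep A s := by
        calc 2 ^ m ≤ _ := hs1
          _ = ((8 * e m + 1) * e m) * rep A s := by rw [he]; ring
      exact_mod_cast h2
    have h3 : (((8 * e m + 1) * e m : ℕ) : ℝ) ≤ r ^ m := by
      refine le_trans ?_ hm1
      exact_mod_cast hloss m
    have h4 : (2 : ℝ) ^ m = r ^ m * r ^ m := by rw [← mul_pow, ← sq, hr2]
    rw [h4] at h1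
    have h5 : (0 : ℝ) ≤ rep A s := Nat.cast_nonneg _
    have h6 : r ^ m * r ^ m ≤ r ^ m * (rep A s : ℝ) :=
      h1.trans (mul_le_mul_of_nonneg_right h3 h5)
    exact le_of_mul_le_mul_left h6 (by positivity)
  refine ⟨s, ?_, ?_⟩
  · have h1 : (rep A s : ℝ) ≤ s + 1 := by exact_mod_cast rep_le A s
    have h2 : (N₀ : ℝ) ≤ s := by linarith
    exact_mod_cast h2
  · have h1 : (s : ℝ) ≤ M ^ m := by
      have h2 : (s : ℝ) ≤ 2 * (K * (μ : ℝ) ^ (E.c₀ + m * E.c₁)) := by exact_mod_cast hs2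
      have hK0 : (0 : ℝ) ≤ K := Nat.cast_nonneg K
      have hμ0 : (0 : ℝ) ≤ μ := Nat.cast_nonneg μ
      have h3 : (μ : ℝ) ^ (E.c₀ + m * E.c₁) ≤ ((μ : ℝ) + 2) ^ ((E.c₀ + E.c₁) * m) := by
        calc (μ : ℝ) ^ (E.c₀ + m * E.c₁) ≤ ((μ : ℝ) + 2) ^ (E.c₀ + m * E.c₁) :=
              pow_le_pow_left₀ hμ0 (by linarith) _
          _ ≤ ((μ : ℝ) + 2) ^ ((E.c₀ + E.c₁) * m) := by
              refine pow_le_pow_right₀ (by linarith) ?_
              nlinarith
      have h4 : (2 : ℝ) * K ≤ (2 * K + 2) ^ m := by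
        calc (2 : ℝ) * K ≤ 2 * K + 2 := by linarith
          _ = (2 * K + 2) ^ 1 := (pow_one _).symm
          _ ≤ (2 * K + 2) ^ m := pow_le_pow_right₀ (by linarith) hm3
      calc (s : ℝ) ≤ 2 * (K * (μ : ℝ) ^ (E.c₀ + m * E.c₁)) := h2
        _ = (2 * K) * (μ : ℝ) ^ (E.c₀ + m * E.c₁) := by ring
        _ ≤ (2 * K + 2) ^ m * ((μ : ℝ) + 2) ^ ((E.c₀ + E.c₁) * m) := by
            exact mul_le_mul h4 h3 (by positivity) (by positivity)
        _ = M ^ m := by rw [hM, mul_pow, ← pow_mul]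
    calc (s : ℝ) ^ δ ≤ (M ^ m) ^ δ := Real.rpow_le_rpow (Nat.cast_nonneg s) h1 hδ0.le
      _ = (M ^ δ) ^ m := by
          rw [← Real.rpow_natCast, ← Real.rpow_mul hM0.le, mul_comm, Real.rpow_mul hM0.le,
            Real.rpow_natCast]
      _ = r ^ m := by rw [hMδ]
      _ ≤ rep A s := hrep

end Pool.Agent.MP_491344_nt
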