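import Pool.Agent.MP_491344_nt.EnergyH96

set_option autoImplicit false

namespace Pool.Agent.MP_491344_nt.ScaleH96

open Finset Pool.Agent.MP_491344_nt.EnergyH96

lemma geo_left (x : ℝ) (hx0 : 0 ≤ x) (hx1 : x < 1) (i w : ℕ) (hw : w ≤ i + 1) :
    ∑ j ∈ range w, x ^ ((i - j) + (j - i)) ≤ x ^ (i + 1 - w) / (1 - x) := by
  have h1 : 0 < 1 - x := by linarith
  induction w with
  | zero => simp only [range_zero, sum_empty]; positivity
  | succ w ih =>
    rw [sum_range_succ]
    have h2 := ih (by omega)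
    have e1 : (i - w) + (w - i) = i - w := by omega
    have e2 : i + 1 - w = (i - w) + 1 := by omega
    have e3 : i + 1 - (w + 1) = i - w := by omega
    rw [e1, e3]
    rw [e2] at h2
    calc _ ≤ x ^ ((i - w) + 1) / (1 - x) + x ^ (i - w) := by linarith
      _ = x ^ (i - w) / (1 - x) := by
        rw [pow_succ]; field_simp; ring

lemma geo_sum (x : ℝ) (hx0 : 0 ≤ x) (hx1 : x < 1) (i w : ℕ) :
    ∑ j ∈ range w, x ^ ((i - j) + (j - i)) ≤ 2 / (1 - x) := by
  have h1 : 0 < 1 - x := by linarith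
  rcases Nat.lt_or_ge w (i + 2) with h | h
  · have := geo_left x hx0 hx1 i w (by omega)
    have h3 : x ^ (i + 1 - w) ≤ 1 := pow_le_one₀ hx0 hx1.le
    calc _ ≤ x ^ (i + 1 - w) / (1 - x) := this
      _ ≤ 2 / (1 - x) := by
        apply div_le_div_of_nonneg_right _ h1.le
        linarith
  · have key : ∀ k : ℕ, ∑ j ∈ range (i + 1 + k), x ^ ((i - j) + (j - i)) ≤
        (2 - x ^ (k + 1)) / (1 - x) := by
      intro k
      induction k with
      | zero =>
        have := geo_left x hx0 hx1 i (i + 1) le_rfl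
        simp only [Nat.sub_self, pow_zero, Nat.add_zero, Nat.zero_add, pow_one] at this ⊢
        refine this.trans ?_
        apply div_le_div_of_nonneg_right _ h1.le
        linarith
      | succ k ih =>
        rw [← add_assoc, sum_range_succ]
        have e1 : (i - (i + 1 + k)) + ((i + 1 + k) - i) = k + 1 := by omega
        rw [e1]
        calc _ ≤ (2 - x ^ (k + 1)) / (1 - x) + x ^ (k + 1) := by linarith
          _ = (2 - x ^ (k + 1 + 1)) / (1 - x) := by
            rw [pow_succ x (k+1)]; field_simp; ring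
    obtain ⟨k, hk⟩ : ∃ k, w = i + 1 + k := ⟨w - (i + 1), by omega⟩
    rw [hk]
    refine (key k).trans ?_
    apply div_le_div_of_nonneg_right _ h1.le
    have : 0 ≤ x ^ (k + 1) := pow_nonneg hx0 _
    linarith

/-- The test function. -/
noncomputable def W (b w : ℕ) (x : ℝ) (d : ℤ) : ℝ :=
  ∑ i ∈ range w, if |d| < (b : ℤ) ^ (i + 1) then x ^ (i + 1) else 0

lemma card_short (b m : ℕ) (D : Finset ℤ) :
    ((D.filter (fun d => |d| < (b : ℤ) ^ m)).card : ℝ) ≤ 2 * (b : ℝ) ^ m := by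
  have h : (D.filter (fun d => |d| < (b : ℤ) ^ m)) ⊆ Finset.Ioo (-(b:ℤ) ^ m) ((b:ℤ) ^ m) := by
    intro d hd
    rw [Finset.mem_Ioo]
    exact abs_lt.mp (Finset.mem_filter.mp hd).2
  have h2 := Finset.card_le_card h
  rw [Int.card_Ioo] at h2
  have h3 : (((b:ℤ) ^ m - -(b:ℤ) ^ m - 1).toNat : ℤ) ≤ 2 * (b:ℤ) ^ m := by
    have : 0 ≤ (b:ℤ) ^ m := by positivity
    omega
  have h4 : ((D.filter (fun d => |d| < (b : ℤ) ^ m)).card : ℤ) ≤ 2 * (b:ℤ) ^ m := by
    refine le_trans ?_ h3
    exact_mod_cast h2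
  exact_mod_cast h4

lemma sum_W_sq (b w : ℕ) (x : ℝ) (hx0 : 0 < x) (hx1 : x < 1) (hxb : x * x * b = 1)
    (D : Finset ℤ) : ∑ d ∈ D, W b w x d ^ 2 ≤ 2 * w * (2 / (1 - x)) := by
  have h1 : ∀ d, W b w x d ^ 2 = ∑ i ∈ range w, ∑ j ∈ range w,
      if |d| < (b : ℤ) ^ (i + 1) ∧ |d| < (b : ℤ) ^ (j + 1) then x ^ (i + 1) * x ^ (j + 1) else 0 := by
    intro d
    rw [sq, W, Finset.sum_mul_sum]
    refine sum_congr rfl fun i _ => sum_congr rfl fun j _ => ?_
    by_cases hi : |d| < (b : ℤ) ^ (i + 1)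
    · by_cases hj : |d| < (b : ℤ) ^ (j + 1)
      · simp only [hi, hj, and_self, if_true]
      · simp only [hi, hj, and_false, if_true, if_false, mul_zero]
    · simp only [hi, false_and, if_false, zero_mul]
  rw [sum_congr rfl (fun d _ => h1 d), sum_comm]
  have h2 : ∀ i ∈ range w, ∑ d ∈ D, ∑ j ∈ range w,
      (if |d| < (b : ℤ) ^ (i + 1) ∧ |d| < (b : ℤ) ^ (j + 1) then x ^ (i + 1) * x ^ (j + 1) else 0) ≤
      2 * (2 / (1 - x)) := by
    intro i _
    rw [sum_comm]
    calc _ ≤ ∑ j ∈ range w, 2 * x ^ ((i - j) + (j - i)) := by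
          refine sum_le_sum fun j _ => ?_
          rw [← sum_filter, sum_const, nsmul_eq_mul]
          have hcard : ((D.filter (fun d => |d| < (b : ℤ) ^ (i + 1) ∧ |d| < (b : ℤ) ^ (j + 1))).card : ℝ) ≤
              2 * (b:ℝ) ^ (min i j + 1) := by
            refine le_trans ?_ (card_short b (min i j + 1) D)
            have : (D.filter (fun d => |d| < (b : ℤ) ^ (i + 1) ∧ |d| < (b : ℤ) ^ (j + 1))) ⊆
                (D.filter (fun d => |d| < (b : ℤ) ^ (min i j + 1))) := by
              intro d hd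
              rw [mem_filter] at hd ⊢
              refine ⟨hd.1, ?_⟩
              rcases le_total i j with hij | hij
              · rw [min_eq_left hij]; exact hd.2.1
              · rw [min_eq_right hij]; exact hd.2.2
            exact_mod_cast card_le_card this
          have hpos : 0 ≤ x ^ (i + 1) * x ^ (j + 1) := by positivity
          calc _ ≤ (2 * (b:ℝ) ^ (min i j + 1)) * (x ^ (i + 1) * x ^ (j + 1)) :=
                mul_le_mul_of_nonneg_right hcard hpos
            _ = 2 * x ^ ((i - j) + (j - i)) := by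
                have e1 : (i + 1) + (j + 1) = ((i - j) + (j - i)) + 2 * (min i j + 1) := by
                  omega
                have e2 : x ^ (i + 1) * x ^ (j + 1) =
                    x ^ ((i - j) + (j - i)) * (x * x) ^ (min i j + 1) := by
                  rw [← pow_add, e1, pow_add, pow_mul, sq]
                rw [e2]
                have e3 : (b:ℝ) ^ (min i j + 1) * (x * x) ^ (min i j + 1) = 1 := by
                  rw [← mul_pow, mul_comm, hxb, one_pow]
                calc _ = 2 * x ^ ((i - j) + (j - i)) * ((b:ℝ) ^ (min i j + 1) * (x * x) ^ (min i j + 1)) := by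
                      ring
                  _ = _ := by rw [e3, mul_one]
      _ = 2 * ∑ j ∈ range w, x ^ ((i - j) + (j - i)) := by rw [mul_sum]
      _ ≤ 2 * (2 / (1 - x)) := by
          have := geo_sum x hx0.le hx1 i w
          linarith
  calc _ ≤ ∑ i ∈ range w, 2 * (2 / (1 - x)) := sum_le_sum h2
    _ = 2 * w * (2 / (1 - x)) := by
      rw [sum_const, card_range, nsmul_eq_mul]; ring

/-- Pairs in a common block: Cauchy-Schwarz. -/
lemma pairs_ge (S : Finset ℕ) (f : ℕ → ℕ) :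
    (S.card : ℝ) ^ 2 ≤ ((S.image f).card : ℝ) *
      ∑ p ∈ S ×ˢ S, if f p.1 = f p.2 then (1:ℝ) else 0 := by
  classical
  have h1 : (S.card : ℝ) = ∑ l ∈ S.image f, ((S.filter (fun a => f a = l)).card : ℝ) := by
    have := Finset.card_eq_sum_card_image f S
    exact_mod_cast this
  have h2 : ∑ p ∈ S ×ˢ S, (if f p.1 = f p.2 then (1:ℝ) else 0) =
      ∑ l ∈ S.image f, ((S.filter (fun a => f a = l)).card : ℝ) ^ 2 := by
    rw [sum_product]
    have h3 : ∀ a ∈ S, ∑ y ∈ S, (if f a = f y then (1:ℝ) else 0) =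
        ((S.filter (fun y => f y = f a)).card : ℝ) := by
      intro a _
      rw [← sum_filter, sum_const, nsmul_eq_mul, mul_one]
      congr 2
      ext y
      simp only [mem_filter]
      constructor
      · rintro ⟨h, h'⟩; exact ⟨h, h'.symm⟩
      · rintro ⟨h, h'⟩; exact ⟨h, h'.symm⟩
    rw [sum_congr rfl h3]
    rw [← Finset.sum_fiberwise_of_maps_to (s := S) (t := S.image f) (g := f)
      (fun a ha => mem_image_of_mem f ha)]
    refine sum_congr rfl fun l _ => ?_
    rw [sum_congr rfl (g := fun _ => ((S.filter (fun a => f a = l)).card : ℝ))]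
    · rw [sum_const, nsmul_eq_mul, sq]
    · intro a ha
      rw [(mem_filter.mp ha).2]
  rw [h2, h1]
  exact sq_sum_le_card_mul_sum_sq

lemma same_block (b i a a' : ℕ) (hb : 0 < b) (h : a / b ^ (i + 1) = a' / b ^ (i + 1)) :
    |(a : ℤ) - a'| < (b : ℤ) ^ (i + 1) := by
  have hpos : 0 < b ^ (i + 1) := pow_pos hb _
  have h5 : ((b : ℤ) ^ (i + 1)) = ((b ^ (i + 1) : ℕ) : ℤ) := (Nat.cast_pow b (i + 1)).symm
  rw [h5, abs_lt]
  generalize b ^ (i + 1) = m at h hpos
  have h1 := Nat.div_add_mod a m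
  have h2 := Nat.div_add_mod a' m
  have h3 := Nat.mod_lt a hpos
  have h4 := Nat.mod_lt a' hpos
  rw [h] at h1
  generalize m * (a' / m) = t at h1 h2
  constructor <;> omega

/-- Finite form of the scale inequality. -/
theorem scale_finite (b w : ℕ) (hb : 2 ≤ b) (K : ℝ) (hK : 0 < K) (S : Finset ℕ) (F : ℝ)
    (hF : ∑ p ∈ S ×ˢ S, (((S ×ˢ S).filter (fun q => q.1 + q.2 = p.1 + p.2)).card : ℝ) ≤ F)
    (hS : ∀ i < w, ((S.image (fun a => a / b ^ (i + 1))).card : ℝ) * Real.sqrt b ^ (i + 1) ≤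
      2 * K * S.card) :
    (w : ℝ) * (S.card : ℝ) ^ 2 ≤ 56 * K ^ 2 * F := by
  classical
  have hb0 : (0:ℝ) < b := by positivity
  set B : ℝ := Real.sqrt b with hB
  have hBpos : 0 < B := Real.sqrt_pos.mpr hb0
  have hBsq : B * B = b := Real.mul_self_sqrt hb0.le
  have hB2 : (1.414 : ℝ) ≤ B := by
    rw [hB]
    apply Real.le_sqrt_of_sq_le
    have : (2:ℝ) ≤ b := by exact_mod_cast hb
    norm_num
    linarith
  set x : ℝ := 1 / B with hx
  have hx0 : 0 < x := by positivity
  have hxle : x ≤ 0.7073 := by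
    rw [hx, div_le_iff₀ hBpos]
    nlinarith
  have hx1 : x < 1 := by linarith
  have hxb : x * x * b = 1 := by
    rw [hx, ← hBsq]; field_simp
  have hgeo : 2 / (1 - x) ≤ 7 := by
    rw [div_le_iff₀ (by linarith)]
    linarith
  set D : Finset ℤ := Finset.Ioo (-(b:ℤ) ^ w) ((b:ℤ) ^ w) with hD
  have hbz : (1 : ℤ) ≤ b := by exact_mod_cast (by omega : 1 ≤ b)
  have htest := test_ineq S (W b w x) D (by
    intro a _ a' _ hne
    rw [hD, mem_Ioo, ← abs_lt]
    by_contra hcon
    push Not at hcon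
    apply hne
    rw [W]
    apply sum_eq_zero
    intro i hi
    rw [if_neg]
    push Not
    refine le_trans ?_ hcon
    exact pow_le_pow_right₀ hbz (by rw [mem_range] at hi; omega)) F hF
  have hWs := sum_W_sq b w x hx0 hx1 hxb D
  -- lower bound
  have hlow : (w : ℝ) * S.card / (2 * K) ≤ ∑ p ∈ S ×ˢ S, W b w x ((p.1:ℤ) - p.2) := by
    have h1 : ∑ p ∈ S ×ˢ S, W b w x ((p.1:ℤ) - p.2) =
        ∑ i ∈ range w, x ^ (i + 1) *
          ∑ p ∈ S ×ˢ S, (if |(p.1:ℤ) - p.2| < (b : ℤ) ^ (i + 1) then (1:ℝ) else 0) := by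
      simp only [W]
      rw [sum_comm]
      refine sum_congr rfl fun i _ => ?_
      rw [mul_sum]
      refine sum_congr rfl fun p _ => ?_
      by_cases h : |(p.1:ℤ) - p.2| < (b : ℤ) ^ (i + 1)
      · rw [if_pos h, if_pos h, mul_one]
      · rw [if_neg h, if_neg h, mul_zero]
    rw [h1]
    have h2 : ∀ i ∈ range w, (S.card : ℝ) / (2 * K) ≤ x ^ (i + 1) *
          ∑ p ∈ S ×ˢ S, (if |(p.1:ℤ) - p.2| < (b : ℤ) ^ (i + 1) then (1:ℝ) else 0) := by
      intro i hi
      rw [mem_range] at hi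
      have h3 := pairs_ge S (fun a => a / b ^ (i + 1))
      have h4 : ∑ p ∈ S ×ˢ S, (if p.1 / b ^ (i + 1) = p.2 / b ^ (i + 1) then (1:ℝ) else 0) ≤
          ∑ p ∈ S ×ˢ S, (if |(p.1:ℤ) - p.2| < (b : ℤ) ^ (i + 1) then (1:ℝ) else 0) := by
        refine sum_le_sum fun p _ => ?_
        by_cases h : p.1 / b ^ (i + 1) = p.2 / b ^ (i + 1)
        · rw [if_pos h, if_pos (same_block b i _ _ (by omega) h)]
        · rw [if_neg h]
          split_ifs <;> norm_num
      have h5 := hS i hi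
      set c : ℝ := ((S.image (fun a => a / b ^ (i + 1))).card : ℝ) with hc
      set N : ℝ := ∑ p ∈ S ×ˢ S, (if |(p.1:ℤ) - p.2| < (b : ℤ) ^ (i + 1) then (1:ℝ) else 0) with hN
      have hc0 : 0 ≤ c := by rw [hc]; positivity
      have h6 : (S.card : ℝ) ^ 2 ≤ c * N := h3.trans (mul_le_mul_of_nonneg_left h4 hc0)
      have hN0 : 0 ≤ N := by
        rw [hN]; exact sum_nonneg fun p _ => by split_ifs <;> norm_num
      have hBi : 0 < B ^ (i + 1) := pow_pos hBpos _
      have hxi : x ^ (i + 1) = 1 / B ^ (i + 1) := by rw [hx, one_div_pow]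
      rw [hxi, div_le_iff₀ (by positivity)]
      rcases Nat.eq_zero_or_pos S.card with hs | hs
      · rw [hs]; simp only [Nat.cast_zero]; positivity
      · have hs' : (0:ℝ) < S.card := by exact_mod_cast hs
        have h7 : (S.card : ℝ) ^ 2 * B ^ (i + 1) ≤ 2 * K * S.card * N := by
          calc (S.card : ℝ) ^ 2 * B ^ (i + 1) ≤ (c * N) * B ^ (i + 1) :=
                mul_le_mul_of_nonneg_right h6 hBi.le
            _ = (c * B ^ (i + 1)) * N := by ring
            _ ≤ (2 * K * S.card) * N := mul_le_mul_of_nonneg_right h5 hN0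
            _ = _ := by ring
        have h8 : (S.card : ℝ) * B ^ (i + 1) ≤ 2 * K * N := by
          have : (S.card : ℝ) * ((S.card : ℝ) * B ^ (i + 1)) ≤ (S.card : ℝ) * (2 * K * N) := by
            nlinarith
          exact le_of_mul_le_mul_left this hs'
        have : 1 / B ^ (i + 1) * N * (2 * K) = (2 * K * N) / B ^ (i + 1) := by ring
        rw [this, le_div_iff₀ hBi]
        exact h8
    calc (w : ℝ) * S.card / (2 * K) = ∑ i ∈ range w, (S.card : ℝ) / (2 * K) := by
          rw [sum_const, card_range, nsmul_eq_mul]; ring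
      _ ≤ _ := sum_le_sum h2
  have hF0 : 0 ≤ F := le_trans (sum_nonneg fun p _ => by positivity) hF
  have h9 : ((w : ℝ) * S.card / (2 * K)) ^ 2 ≤ F * (14 * w) := by
    calc ((w : ℝ) * S.card / (2 * K)) ^ 2 ≤ (∑ p ∈ S ×ˢ S, W b w x ((p.1:ℤ) - p.2)) ^ 2 :=
          pow_le_pow_left₀ (by positivity) hlow 2
      _ ≤ F * ∑ d ∈ D, W b w x d ^ 2 := htest
      _ ≤ F * (14 * w) := by
          refine mul_le_mul_of_nonneg_left (hWs.trans ?_) hF0
          have : (0:ℝ) ≤ w := Nat.cast_nonneg _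
          nlinarith
  rcases Nat.eq_zero_or_pos w with hw | hw
  · rw [hw]; simp only [Nat.cast_zero, zero_mul]; positivity
  · have hw' : (0:ℝ) < w := by exact_mod_cast hw
    rw [div_pow, div_le_iff₀ (by positivity)] at h9
    have : (w : ℝ) * ((w : ℝ) * (S.card : ℝ) ^ 2) ≤ (w : ℝ) * (56 * K ^ 2 * F) := by
      nlinarith
    exact le_of_mul_le_mul_left this hw'

end Pool.Agent.MP_491344_nt.ScaleH96
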